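import Pool.Agent.Q45.GM.StmJ

set_option autoImplicit false
set_option linter.all false

open scoped Classical TensorProduct
open Polynomial

/-! Reduction modulo p of a free module of finite rank, in a basis. -/

namespace Pool.Agent.Q45.GM.JRed

variable {p : ℕ} [Fact p.Prime] {M : Type} [AddCommGroup M] [Module ℤ_[p] M]
  {ι : Type} [Fintype ι] (b : Module.Basis ι ℤ_[p] M)

/-- reduction of the coordinates -/
noncomputable def red (m : M) : ι → ZMod p := fun i => PadicInt.toZMod (b.repr m i)

/-- a section of the reduction -/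
noncomputable def sec (v : ι → ZMod p) : M := b.equivFun.symm (fun i => ((v i).val : ℤ_[p]))

/-- the reduction of an endomorphism -/
noncomputable def redEnd (φ : M →ₗ[ℤ_[p]] M) : (ι → ZMod p) →ₗ[ZMod p] (ι → ZMod p) :=
  Matrix.toLin' ((LinearMap.toMatrix b b φ).map PadicInt.toZMod)

theorem red_add (m m' : M) : red b (m + m') = red b m + red b m' := by
  funext i; simp [red]

theorem red_sub (m m' : M) : red b (m - m') = red b m - red b m' := by
  funext i; simp [red]

theorem red_smul (r : ℤ_[p]) (m : M) : red b (r • m) = PadicInt.toZMod r • red b m := by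
  funext i; simp [red]

theorem red_sec (v : ι → ZMod p) : red b (sec b v) = v := by
  funext i
  have : b.repr (sec b v) i = ((v i).val : ℤ_[p]) := by
    unfold sec
    rw [← Module.Basis.equivFun_apply, LinearEquiv.apply_symm_apply]
  unfold red
  rw [this, map_natCast, ZMod.natCast_zmod_val]

theorem red_map (φ : M →ₗ[ℤ_[p]] M) (m : M) : red b (φ m) = redEnd b φ (red b m) := by
  funext i
  have h := LinearMap.toMatrix_mulVec_repr b b φ m
  unfold redEnd
  rw [Matrix.toLin'_apply]
  unfold red
  rw [← h]
  have := RingHom.map_mulVec (PadicInt.toZMod : ℤ_[p] →+* ZMod p) (LinearMap.toMatrix b b φ)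
    (b.repr m) i
  exact this

theorem red_pow (φ : M →ₗ[ℤ_[p]] M) (n : ℕ) (m : M) :
    red b ((φ ^ n) m) = (redEnd b φ ^ n) (red b m) := by
  induction n generalizing m with
  | zero => rfl
  | succ n ih => rw [pow_succ, pow_succ, Module.End.mul_apply, Module.End.mul_apply, ih, red_map]

theorem red_aeval (φ : M →ₗ[ℤ_[p]] M) (P : ℤ_[p][X]) (m : M) :
    red b (aeval φ P m) = aeval (redEnd b φ) (P.map PadicInt.toZMod) (red b m) := by
  induction P using Polynomial.induction_on' with
  | add f g hf hg =>
    rw [map_add, LinearMap.add_apply, red_add, hf, hg, Polynomial.map_add, map_add,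
      LinearMap.add_apply]
  | monomial n a =>
    rw [aeval_monomial, Polynomial.map_monomial, aeval_monomial, Module.End.mul_apply,
      Module.End.mul_apply, Module.algebraMap_end_apply, Module.algebraMap_end_apply, red_smul,
      red_pow]

theorem toZMod_eq_zero {x : ℤ_[p]} (h : PadicInt.toZMod x = 0) : ∃ y, x = (p : ℤ_[p]) * y := by
  have : x ∈ RingHom.ker (PadicInt.toZMod : ℤ_[p] →+* ZMod p) := h
  rw [PadicInt.ker_toZMod, PadicInt.maximalIdeal_eq_span_p, Ideal.mem_span_singleton] at this
  exact this

theorem red_eq_zero {m : M} (h : red b m = 0) : ∃ m', m = (p : ℤ_[p]) • m' := by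
  have : ∀ i, ∃ y, b.repr m i = (p : ℤ_[p]) * y := fun i => toZMod_eq_zero (congrFun h i)
  choose y hy using this
  refine ⟨b.equivFun.symm y, ?_⟩
  apply b.repr.injective
  ext i
  rw [hy i, map_smul, Finsupp.smul_apply, smul_eq_mul]
  congr 1
  rw [← Module.Basis.equivFun_apply, LinearEquiv.apply_symm_apply]

theorem toZMod_p : PadicInt.toZMod (p : ℤ_[p]) = 0 := by
  rw [map_natCast]; simp

theorem red_p (m : M) : red b ((p : ℤ_[p]) • m) = 0 := by
  rw [red_smul, toZMod_p, zero_smul]

theorem charpoly_red (φ : M →ₗ[ℤ_[p]] M) [Module.Free ℤ_[p] M] [Module.Finite ℤ_[p] M] :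
    (redEnd b φ).charpoly = φ.charpoly.map PadicInt.toZMod := by
  rw [← LinearMap.charpoly_toMatrix φ b, ← Matrix.charpoly_map]
  unfold redEnd
  rw [← LinearMap.charpoly_toMatrix _ (Pi.basisFun (ZMod p) ι), LinearMap.toMatrix_eq_toMatrix',
    LinearMap.toMatrix'_toLin']

end Pool.Agent.Q45.GM.JRed
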