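import Pool.Agent.Q45.GM.StmJ

/-!
# Job GM-FROB (project GM of helper45; written by helper98)
-/

set_option autoImplicit false

open Polynomial
open scoped Classical

namespace Pool.Agent.Q45.GM.JFROB

/-- the Frobenius orbit of the root in `k[x]/h` -/
theorem orbit {k : Type} [Field k] [Fintype k] {h : k[X]} (hi : Irreducible h) (i j : ℕ) :
    (AdjoinRoot.root h) ^ Fintype.card k ^ i = (AdjoinRoot.root h) ^ Fintype.card k ^ j ↔
      i ≡ j [MOD h.natDegree] := by
  have : Fact (Irreducible h) := ⟨hi⟩
  have hfd : FiniteDimensional k (AdjoinRoot h) := (AdjoinRoot.powerBasis hi.ne_zero).finite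
  have : Finite (AdjoinRoot h) := Module.finite_of_finite k
  have hfr : Module.finrank k (AdjoinRoot h) = h.natDegree := by
    rw [(AdjoinRoot.powerBasis hi.ne_zero).finrank, AdjoinRoot.powerBasis_dim]
  set φ := FiniteField.frobeniusAlgHom k (AdjoinRoot h) with hφ
  have hord : orderOf φ = h.natDegree := by
    rw [hφ, FiniteField.orderOf_frobeniusAlgHom, hfr]
  have happ : ∀ n : ℕ, (φ ^ n) (AdjoinRoot.root h) = (AdjoinRoot.root h) ^ Fintype.card k ^ n := by
    intro n
    rw [AlgHom.coe_pow, hφ, FiniteField.coe_frobeniusAlgHom, pow_iterate]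
  have hext : ∀ m n : ℕ, (φ ^ m) (AdjoinRoot.root h) = (φ ^ n) (AdjoinRoot.root h) ↔ φ ^ m = φ ^ n := by
    intro m n
    constructor
    · intro hmn
      exact AdjoinRoot.algHom_ext hmn
    · intro hmn
      rw [hmn]
  rw [← happ, ← happ, hext, ← hord]
  have hpos : 0 < orderOf φ := by
    rw [hord]
    exact hi.natDegree_pos
  have hunit : IsOfFinOrder φ := orderOf_pos_iff.1 hpos
  exact hunit.pow_eq_pow_iff_modEq

theorem main : Pool.Agent.Q45.GM.Frob := by
  intro k k' _ _ _ _ _ h hi
  have : Fintype k := Fintype.ofFinite k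
  have hN : 0 < h.natDegree := hi.natDegree_pos
  have : NeZero h.natDegree := ⟨hN.ne'⟩
  have hq : Nat.card k = Fintype.card k := Nat.card_eq_fintype_card
  have hirr : Fact (Irreducible h) := ⟨hi⟩
  have hsep : h.Separable := PerfectField.separable_of_irreducible hi
  obtain ⟨x₀, hx₀⟩ := IsSepClosed.exists_aeval_eq_zero k' h
    (degree_pos_of_irreducible hi).ne' hsep
  set ι : AdjoinRoot h →ₐ[k] k' := AdjoinRoot.liftAlgHom h (Algebra.ofId k k') x₀ hx₀ with hι
  have hroot : ι (AdjoinRoot.root h) = x₀ := by
    rw [hι]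
    exact AdjoinRoot.liftAlgHom_root _ _ _ _
  have hinj : Function.Injective ι := ι.toRingHom.injective
  have hx : ∀ i j : ℕ, x₀ ^ Fintype.card k ^ i = x₀ ^ Fintype.card k ^ j ↔
      i ≡ j [MOD h.natDegree] := by
    intro i j
    rw [← orbit hi, ← hroot, ← map_pow, ← map_pow]
    exact hinj.eq_iff
  have hfrob : ∀ x : k', aeval x h = 0 → aeval (x ^ Fintype.card k) h = 0 := by
    intro x hx
    have h1 := congrArg (aeval x) (FiniteField.expand_card h)
    rw [expand_aeval, map_pow, hx, zero_pow Fintype.card_pos.ne'] at h1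
    exact h1
  have hall : ∀ i : ℕ, aeval (x₀ ^ Fintype.card k ^ i) h = 0 := by
    intro i
    induction i with
    | zero => simpa using hx₀
    | succ i ih =>
      rw [pow_succ, pow_mul]
      exact hfrob _ ih
  set ρ : ZMod h.natDegree → k' := fun i => x₀ ^ Fintype.card k ^ i.val with hρ
  have hρinj : Function.Injective ρ := by
    intro i j hij
    have h1 := (hx i.val j.val).1 hij
    have h2 := (ZMod.natCast_eq_natCast_iff _ _ _).2 h1
    rwa [ZMod.natCast_zmod_val, ZMod.natCast_zmod_val] at h2
  refine ⟨ρ, hρinj, ?_, ?_⟩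
  · intro i
    rw [hρ, hq]
    simp only
    rw [← pow_mul, ← pow_succ, hx, ← ZMod.natCast_eq_natCast_iff, ZMod.natCast_zmod_val]
    push_cast
    rw [ZMod.natCast_zmod_val]
  · intro x
    constructor
    · intro hx'
      have hh0 : h.map (algebraMap k k') ≠ 0 := by
        rw [Ne, Polynomial.map_eq_zero]
        exact hi.ne_zero
      have hmem : ∀ y : k', aeval y h = 0 ↔ y ∈ (h.map (algebraMap k k')).roots.toFinset := by
        intro y
        rw [Multiset.mem_toFinset, mem_roots hh0, IsRoot.def, eval_map_algebraMap]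
      have hsub : Finset.univ.image ρ ⊆ (h.map (algebraMap k k')).roots.toFinset := by
        intro y hy
        rw [Finset.mem_image] at hy
        obtain ⟨i, -, rfl⟩ := hy
        rw [← hmem]
        exact hall _
      have hcard : (h.map (algebraMap k k')).roots.toFinset.card ≤ (Finset.univ.image ρ).card := by
        rw [Finset.card_image_of_injective _ hρinj, Finset.card_univ, ZMod.card]
        refine (Multiset.toFinset_card_le _).trans ?_
        refine (card_roots' _).trans ?_
        rw [natDegree_map]
      have heq := Finset.eq_of_subset_of_card_le hsub hcard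
      have := (hmem x).1 hx'
      rw [← heq, Finset.mem_image] at this
      obtain ⟨i, -, h1⟩ := this
      exact ⟨i, h1.symm⟩
    · rintro ⟨i, rfl⟩
      exact hall _

end Pool.Agent.Q45.GM.JFROB
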