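import Pool.Agent.Q45.GM.J.LIN3

set_option autoImplicit false
set_option linter.all false

open scoped Classical TensorProduct
open Polynomial

namespace Pool.Agent.Q45.GM.JLIN4

open Pool.Agent.Q45.GM.JLIN3

variable {p : ℕ} [Fact p.Prime] {M : Type} [AddCommGroup M] [Module ℤ_[p] M]
  [Module.Free ℤ_[p] M] [Module.Finite ℤ_[p] M]

/-- clearing denominators -/
theorem lift (ψ : (ℚ_[p] ⊗[ℤ_[p]] M) →ₗ[ℚ_[p]] (ℚ_[p] ⊗[ℤ_[p]] M)) :
    ∃ (s : ℤ_[p]) (ψ' : M →ₗ[ℤ_[p]] M), s ≠ 0 ∧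
      (∀ m, s • ψ ((1 : ℚ_[p]) ⊗ₜ[ℤ_[p]] m) = (1 : ℚ_[p]) ⊗ₜ[ℤ_[p]] ψ' m) ∧
      ∀ w, s • ψ w = ψ'.baseChange ℚ_[p] w := by
  let b := Module.Free.chooseBasis ℤ_[p] M
  have h := fun i => surj (ψ ((1 : ℚ_[p]) ⊗ₜ[ℤ_[p]] b i))
  choose s m hs hm using h
  let ψ' : M →ₗ[ℤ_[p]] M := b.constr ℤ_[p] (fun i => (∏ j ∈ Finset.univ.erase i, s j) • m i)
  have hb : ∀ i, ψ' (b i) = (∏ j ∈ Finset.univ.erase i, s j) • m i := fun i => b.constr_basis _ _ i
  have key : ((∏ j, s j) • (ψ.restrictScalars ℤ_[p])) ∘ₗ (TensorProduct.mk ℤ_[p] ℚ_[p] M 1) =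
      (TensorProduct.mk ℤ_[p] ℚ_[p] M 1) ∘ₗ ψ' := by
    refine b.ext (fun i => ?_)
    simp only [LinearMap.comp_apply, LinearMap.smul_apply, LinearMap.restrictScalars_apply,
      TensorProduct.mk_apply]
    rw [hb, TensorProduct.tmul_smul, ← hm i, smul_smul,
      Finset.prod_erase_mul _ _ (Finset.mem_univ i)]
  have key' : ∀ m, (∏ j, s j) • ψ ((1 : ℚ_[p]) ⊗ₜ[ℤ_[p]] m) = (1 : ℚ_[p]) ⊗ₜ[ℤ_[p]] ψ' m :=
    fun m => LinearMap.congr_fun key m
  refine ⟨∏ j, s j, ψ', Finset.prod_ne_zero_iff.mpr (fun i _ => hs i), key', ?_⟩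
  intro w
  induction w using TensorProduct.induction_on with
  | zero => simp
  | tmul x m =>
    have e : x ⊗ₜ[ℤ_[p]] m = x • ((1 : ℚ_[p]) ⊗ₜ[ℤ_[p]] m) := by
      rw [TensorProduct.smul_tmul', smul_eq_mul, mul_one]
    rw [e, map_smul, map_smul, LinearMap.baseChange_tmul, ← key' m, smul_comm]
  | add a c ha hc => rw [map_add, smul_add, ha, hc, map_add]

/-- division by p -/
theorem divp (χ : M →ₗ[ℤ_[p]] M) (h : ∀ m, ∃ m', χ m = (p : ℤ_[p]) • m') :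
    ∃ χ' : M →ₗ[ℤ_[p]] M, χ = (p : ℤ_[p]) • χ' := by
  let b := Module.Free.chooseBasis ℤ_[p] M
  choose f hf using h
  refine ⟨b.constr ℤ_[p] (fun i => f (b i)), ?_⟩
  refine b.ext (fun i => ?_)
  rw [LinearMap.smul_apply, b.constr_basis, ← hf]

theorem main : Pool.Agent.Q45.GM.Lin4 := by
  intro p _ M _ _ _ _ Φ hΦ
  have h1 : ∀ ψ : M →ₗ[ℤ_[p]] M, (∀ φ ∈ Φ, ∀ m, ψ (φ m) = φ (ψ m)) →
      ∃ c : ℤ_[p], ∀ m, ψ m = c • m := by
    let E : Submodule ℤ_[p] (M →ₗ[ℤ_[p]] M) :=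
      { carrier := {ψ | ∀ φ ∈ Φ, ∀ m, ψ (φ m) = φ (ψ m)}
        zero_mem' := by intro φ _ m; simp
        add_mem' := by
          intro a c ha hc φ hφ m
          rw [LinearMap.add_apply, LinearMap.add_apply, map_add, ha φ hφ m, hc φ hφ m]
        smul_mem' := by
          intro r a ha φ hφ m
          rw [LinearMap.smul_apply, LinearMap.smul_apply, map_smul, ha φ hφ m] }
    have hE : ∀ ψ, ψ ∈ E ↔ ∀ φ ∈ Φ, ∀ m, ψ (φ m) = φ (ψ m) := fun _ => Iff.rfl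
    have hle : E ≤ Submodule.span ℤ_[p] {LinearMap.id} := by
      refine Submodule.le_of_le_smul_of_le_jacobson_bot (I := IsLocalRing.maximalIdeal ℤ_[p])
        (IsNoetherian.noetherian _) (IsLocalRing.maximalIdeal_le_jacobson _) ?_
      intro ψ hψ
      obtain ⟨c, hc⟩ := hΦ ψ (fun φ hφ m => ⟨0, by rw [(hE ψ).mp hψ φ hφ m]; simp⟩)
      obtain ⟨χ, hχ⟩ := divp (ψ - (c : ℤ_[p]) • LinearMap.id) (by
        intro m
        obtain ⟨m', hm'⟩ := hc m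
        refine ⟨m', ?_⟩
        rw [← hm', LinearMap.sub_apply, LinearMap.smul_apply, LinearMap.id_apply]
        congr 1
        exact Int.cast_smul_eq_zsmul ℤ_[p] c m)
      have hχE : χ ∈ E := by
        rw [hE]
        intro φ hφ m
        have hp : (p : ℤ_[p]) • (χ (φ m)) = (p : ℤ_[p]) • (φ (χ m)) := by
          have e1 : ∀ x, (p : ℤ_[p]) • χ x = ψ x - (c : ℤ_[p]) • x := by
            intro x
            have := LinearMap.congr_fun hχ x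
            rw [LinearMap.smul_apply] at this
            rw [← this]; simp
          rw [← map_smul φ (p : ℤ_[p]) (χ m), e1, e1, map_sub, (hE ψ).mp hψ φ hφ m, map_smul]
        exact smul_right_injective M pne hp
      have e : ψ = (c : ℤ_[p]) • LinearMap.id + (p : ℤ_[p]) • χ := by
        rw [← hχ]; abel
      rw [e]
      exact Submodule.add_mem_sup (Submodule.smul_mem _ _ (Submodule.mem_span_singleton_self _))
        (Submodule.smul_mem_smul pmem hχE)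
    intro ψ hψ
    obtain ⟨c, hc⟩ := Submodule.mem_span_singleton.mp (hle ((hE ψ).mpr hψ))
    refine ⟨c, fun m => ?_⟩
    rw [← hc]; simp
  refine ⟨h1, ?_⟩
  intro ψ hψ
  obtain ⟨s, ψ', hs, hψ1, hψ2⟩ := lift ψ
  obtain ⟨c, hc⟩ := h1 ψ' (by
    intro φ hφ m
    have e : (1 : ℚ_[p]) ⊗ₜ[ℤ_[p]] (ψ' (φ m) - φ (ψ' m)) = 0 := by
      rw [TensorProduct.tmul_sub, ← hψ1, ← LinearMap.baseChange_tmul, ← LinearMap.baseChange_tmul,
        hψ φ hφ, ← hψ1 m]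
      have : ∀ (x : ℚ_[p] ⊗[ℤ_[p]] M), (φ.baseChange ℚ_[p]) (s • x) = s • (φ.baseChange ℚ_[p]) x := by
        intro x
        rw [← algebraMap_smul ℚ_[p] s x, map_smul, algebraMap_smul]
      rw [this, sub_self]
    exact sub_eq_zero.mp (inj e))
  have hs' : (s : ℚ_[p]) ≠ 0 := by simpa using hs
  have hbase : ∀ w : ℚ_[p] ⊗[ℤ_[p]] M, ψ'.baseChange ℚ_[p] w = (c : ℚ_[p]) • w := by
    intro w
    induction w using TensorProduct.induction_on with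
    | zero => simp
    | tmul x m =>
      rw [LinearMap.baseChange_tmul, hc, TensorProduct.tmul_smul, ← algebraMap_smul ℚ_[p] c]
      rfl
    | add a d ha hd => rw [map_add, ha, hd, smul_add]
  refine ⟨(s : ℚ_[p])⁻¹ * c, fun w => ?_⟩
  have e : (s : ℚ_[p]) • ψ w = (c : ℚ_[p]) • w := by
    rw [← hbase w, ← hψ2 w, ← algebraMap_smul ℚ_[p] s (ψ w)]; rfl
  rw [mul_smul, ← e, smul_smul, inv_mul_cancel₀ hs', one_smul]

end Pool.Agent.Q45.GM.JLIN4
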