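import Pool.Agent.Q45.GM.J.Red
import Pool.Agent.Q45.GM.J.LIN4

set_option autoImplicit false
set_option linter.all false

open scoped Classical TensorProduct
open Polynomial

namespace Pool.Agent.Q45.GM.JLIN2

open Pool.Agent.Q45.GM.JRed Pool.Agent.Q45.GM.JLIN3 Pool.Agent.Q45.GM.JLIN4

/-- separable characteristic polynomial: the degree of the minimal polynomial is the dimension -/
theorem degMin {K V : Type} [Field K] [AddCommGroup V] [Module K V] [Module.Finite K V]
    (f : V →ₗ[K] V) (h : f.charpoly.Separable) : Module.finrank K V ≤ (minpoly K f).natDegree := by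
  let L := AlgebraicClosure K
  have hmon : (minpoly K f) ≠ 0 := minpoly.ne_zero (Algebra.IsIntegral.isIntegral f)
  have h1 : Fintype.card (f.charpoly.rootSet L) = f.charpoly.natDegree :=
    Polynomial.card_rootSet_eq_natDegree h (IsAlgClosed.splits _)
  have h2 : f.charpoly.rootSet L ⊆ (minpoly K f).rootSet L := by
    intro μ hμ
    rw [Polynomial.mem_rootSet] at hμ ⊢
    refine ⟨hmon, ?_⟩
    have hr : (f.baseChange L).charpoly.IsRoot μ := by
      rw [LinearMap.charpoly_baseChange, Polynomial.IsRoot.def, Polynomial.eval_map_algebraMap]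
      exact hμ.2
    have hev : Module.End.HasEigenvalue (f.baseChange L) μ := by
      rw [Module.End.hasEigenvalue_iff_isRoot_charpoly]; exact hr
    obtain ⟨w, hw⟩ := hev.exists_hasEigenvector
    have e0 : aeval (f.baseChange L) ((minpoly K f).map (algebraMap K L)) = 0 := by
      rw [Polynomial.aeval_map_algebraMap]
      have : f.baseChange L = Module.End.baseChangeHom K L V f := rfl
      rw [this, Polynomial.aeval_algHom_apply, minpoly.aeval, map_zero]
    have e1 := Module.End.aeval_apply_of_hasEigenvector (p := (minpoly K f).map (algebraMap K L)) hw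
    rw [e0, LinearMap.zero_apply] at e1
    have e2 := (smul_eq_zero.mp e1.symm).resolve_right hw.2
    rwa [Polynomial.eval_map_algebraMap] at e2
  have h3 : Fintype.card (f.charpoly.rootSet L) ≤ Fintype.card ((minpoly K f).rootSet L) :=
    Fintype.card_le_of_injective (Set.inclusion h2) (Set.inclusion_injective h2)
  have h4 : Fintype.card ((minpoly K f).rootSet L) ≤ (minpoly K f).natDegree := by
    have : Fintype.card ((minpoly K f).rootSet L) = ((minpoly K f).aroots L).toFinset.card := by
      simp only [Polynomial.rootSet_def, Finset.coe_sort_coe, Fintype.card_coe]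
    rw [this]
    refine (Multiset.toFinset_card_le _).trans ?_
    refine (Polynomial.card_roots' _).trans ?_
    rw [Polynomial.natDegree_map]
  rw [LinearMap.charpoly_natDegree] at h1
  omega

/-- cyclic vector -/
theorem cyclicVec {K V : Type} [Field K] [AddCommGroup V] [Module K V] [Module.Finite K V]
    (f : V →ₗ[K] V) (h : f.charpoly.Separable) : ∃ x : V, ∀ v, ∃ P : K[X], v = aeval f P x := by
  obtain ⟨x, hx⟩ := Module.exists_ker_toSpanSingleton_eq_annihilator K[X] (Module.AEval' f)
  obtain ⟨x, rfl⟩ := (Module.AEval'.of f).surjective x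
  refine ⟨x, ?_⟩
  have hker : ∀ P : K[X], aeval f P x = 0 → minpoly K f ∣ P := by
    intro P hP
    have : P ∈ LinearMap.ker (LinearMap.toSpanSingleton K[X] _ (Module.AEval'.of f x)) := by
      rw [LinearMap.mem_ker, LinearMap.toSpanSingleton_apply]
      have e : P • (Module.AEval'.of f x) = Module.AEval'.of f (aeval f P x) :=
        (Module.AEval.of_aeval_smul ..).symm
      rw [e, hP, map_zero]
    rw [hx, ← span_minpoly_eq_annihilator, Ideal.mem_span_singleton] at this
    exact this
  have hmon : (minpoly K f).Monic := minpoly.monic (Algebra.IsIntegral.isIntegral f)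
  let E : Polynomial.degreeLT K (minpoly K f).natDegree →ₗ[K] V :=
    { toFun := fun P => aeval f (P : K[X]) x
      map_add' := by intro P Q; simp
      map_smul' := by intro r P; simp }
  have hE : Function.Injective E := by
    rw [← LinearMap.ker_eq_bot, LinearMap.ker_eq_bot']
    intro P hP
    have h1 := hker P hP
    have h2 := Polynomial.mem_degreeLT.mp P.2
    apply Subtype.ext
    refine Polynomial.eq_zero_of_dvd_of_degree_lt h1 ?_
    rw [Polynomial.degree_eq_natDegree hmon.ne_zero]
    exact h2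
  have hdim : Module.finrank K (Polynomial.degreeLT K (minpoly K f).natDegree) =
      (minpoly K f).natDegree := by
    rw [LinearEquiv.finrank_eq (Polynomial.degreeLTEquiv K (minpoly K f).natDegree),
      Module.finrank_fin_fun]
  haveI : Module.Finite K (Polynomial.degreeLT K (minpoly K f).natDegree) :=
    Module.Finite.equiv (Polynomial.degreeLTEquiv K (minpoly K f).natDegree).symm
  have hle := LinearMap.finrank_le_finrank_of_injective hE
  have hd := degMin f h
  have heq : Module.finrank K (Polynomial.degreeLT K (minpoly K f).natDegree) =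
      Module.finrank K V := by omega
  have hsurj := (LinearMap.injective_iff_surjective_of_finrank_eq_finrank heq).mp hE
  intro v
  obtain ⟨P, hP⟩ := hsurj v
  exact ⟨P, hP.symm⟩

theorem commutant {K V : Type} [Field K] [AddCommGroup V] [Module K V] [Module.Finite K V]
    (f : V →ₗ[K] V) (h : f.charpoly.Separable) (ψ : V →ₗ[K] V) (hψ : ∀ v, ψ (f v) = f (ψ v)) :
    ∃ P : K[X], ψ = aeval f P := by
  obtain ⟨x, hx⟩ := cyclicVec f h
  obtain ⟨R, hR⟩ := hx (ψ x)
  refine ⟨R, LinearMap.ext fun v => ?_⟩
  obtain ⟨Q, rfl⟩ := hx v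
  have hc : ∀ (Q : K[X]) (w : V), ψ (aeval f Q w) = aeval f Q (ψ w) := by
    intro Q w
    have hcomm : Commute ψ f := LinearMap.ext hψ
    have : Commute ψ (aeval f Q) := by
      induction Q using Polynomial.induction_on' with
      | add a c ha hc => rw [map_add]; exact ha.add_right hc
      | monomial n a =>
        rw [aeval_monomial]
        exact (Algebra.commute_algebraMap_right a ψ).mul_right (hcomm.pow_right n)
    exact LinearMap.congr_fun this w
  rw [hc, hR, ← Module.End.mul_apply, ← Module.End.mul_apply, ← map_mul, ← map_mul, mul_comm]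

theorem toZMod_surj (p : ℕ) [Fact p.Prime] :
    Function.Surjective (Polynomial.map (PadicInt.toZMod : ℤ_[p] →+* ZMod p)) :=
  Polynomial.map_surjective _ (ZMod.ringHom_surjective _)

/-- a monic polynomial which is separable modulo p is separable -/
theorem sepLift (p : ℕ) [Fact p.Prime] (χ : ℤ_[p][X]) (hm : χ.Monic)
    (h : (χ.map PadicInt.toZMod).Separable) : χ.Separable := by
  obtain ⟨a', b', hab⟩ := h
  obtain ⟨a, rfl⟩ := toZMod_surj p a'
  obtain ⟨b, rfl⟩ := toZMod_surj p b'
  have h0 : (a * χ + b * derivative χ - 1).map (PadicInt.toZMod : ℤ_[p] →+* ZMod p) = 0 := by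
    rw [Polynomial.map_sub, Polynomial.map_add, Polynomial.map_mul, Polynomial.map_mul,
      Polynomial.map_one, ← Polynomial.derivative_map, hab, sub_self]
  have h1 : a * χ + b * derivative χ - 1 ∈
      RingHom.ker (mapRingHom (PadicInt.toZMod : ℤ_[p] →+* ZMod p)) := h0
  rw [Polynomial.ker_mapRingHom, PadicInt.ker_toZMod, PadicInt.maximalIdeal_eq_span_p,
    Ideal.map_span, Set.image_singleton, Ideal.mem_span_singleton] at h1
  obtain ⟨c, hc⟩ := h1
  haveI : Module.Finite ℤ_[p] (AdjoinRoot χ) := hm.finite_adjoinRoot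
  haveI : Algebra.IsIntegral ℤ_[p] (AdjoinRoot χ) := Algebra.IsIntegral.of_finite _ _
  have hu : IsUnit (AdjoinRoot.mk χ (derivative χ)) := by
    by_contra hu
    obtain ⟨𝔫, hmax, hmem⟩ := exists_max_ideal_of_mem_nonunits hu
    have hcm : (𝔫.comap (algebraMap ℤ_[p] (AdjoinRoot χ))).IsMaximal :=
      Ideal.isMaximal_comap_of_isIntegral_of_isMaximal 𝔫
    have hp : (p : ℤ_[p]) ∈ 𝔫.comap (algebraMap ℤ_[p] (AdjoinRoot χ)) := by
      rw [IsLocalRing.eq_maximalIdeal hcm]; exact pmem
    rw [Ideal.mem_comap] at hp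
    have e : AdjoinRoot.mk χ (a * χ + b * derivative χ - 1) = AdjoinRoot.mk χ (C (p : ℤ_[p]) * c) := by
      rw [hc]
    rw [map_sub, map_add, map_mul, map_mul, AdjoinRoot.mk_self, mul_zero, zero_add, map_one,
      map_mul, AdjoinRoot.mk_C] at e
    have e1 : (1 : AdjoinRoot χ) = AdjoinRoot.mk χ b * AdjoinRoot.mk χ (derivative χ) -
      AdjoinRoot.of χ (p : ℤ_[p]) * AdjoinRoot.mk χ c := by rw [← e]; ring
    apply hmax.ne_top
    rw [Ideal.eq_top_iff_one, e1]
    exact Ideal.sub_mem _ (Ideal.mul_mem_left _ _ hmem) (Ideal.mul_mem_right _ _ hp)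
  obtain ⟨u, hu⟩ := hu.exists_left_inv
  obtain ⟨g, rfl⟩ := AdjoinRoot.mk_surjective u
  rw [← map_mul, ← map_one (AdjoinRoot.mk χ), AdjoinRoot.mk_eq_mk] at hu
  obtain ⟨d, hd⟩ := hu
  refine ⟨-d, g, ?_⟩
  linear_combination hd

theorem main : Pool.Agent.Q45.GM.Lin2 := by
  intro p _ M _ _ _ _ φ hφ
  have hsep : φ.charpoly.Separable := sepLift p _ (LinearMap.charpoly_monic φ) hφ
  have hcom : ∀ ψ : M →ₗ[ℤ_[p]] M, (∀ m, ψ (φ m) = φ (ψ m)) → ∃ P : ℤ_[p][X], ψ = aeval φ P := by
    let b := Module.Free.chooseBasis ℤ_[p] M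
    let E : Submodule ℤ_[p] (M →ₗ[ℤ_[p]] M) :=
      { carrier := {ψ | ∀ m, ψ (φ m) = φ (ψ m)}
        zero_mem' := by intro m; simp
        add_mem' := by
          intro a c ha hc m
          rw [LinearMap.add_apply, LinearMap.add_apply, map_add, ha m, hc m]
        smul_mem' := by
          intro r a ha m
          rw [LinearMap.smul_apply, LinearMap.smul_apply, map_smul, ha m] }
    have hE : ∀ ψ, ψ ∈ E ↔ ∀ m, ψ (φ m) = φ (ψ m) := fun _ => Iff.rfl
    have hPE : ∀ P : ℤ_[p][X], aeval φ P ∈ E := by
      intro P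
      rw [hE]
      intro m
      have : Commute (aeval φ P) φ := by
        have := Polynomial.aeval_X (R := ℤ_[p]) φ
        have h2 : Commute (aeval φ P) (aeval φ (X : ℤ_[p][X])) := by
          unfold Commute SemiconjBy
          rw [← map_mul, ← map_mul, mul_comm]
        rwa [this] at h2
      exact LinearMap.congr_fun this m
    have hle : E ≤ LinearMap.range (aeval φ : ℤ_[p][X] →ₐ[ℤ_[p]] _).toLinearMap := by
      refine Submodule.le_of_le_smul_of_le_jacobson_bot (I := IsLocalRing.maximalIdeal ℤ_[p])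
        (IsNoetherian.noetherian _) (IsLocalRing.maximalIdeal_le_jacobson _) ?_
      intro ψ hψ
      have hcb := commutant (redEnd b φ) (by rw [charpoly_red]; exact hφ) (redEnd b ψ) (by
        intro v
        rw [← red_sec b v, ← red_map, ← red_map, ← red_map, ← red_map, (hE ψ).mp hψ])
      obtain ⟨P', hP'⟩ := hcb
      obtain ⟨P, rfl⟩ := toZMod_surj p P'
      obtain ⟨χ, hχ⟩ := divp (ψ - aeval φ P) (by
        intro m
        apply red_eq_zero b
        rw [LinearMap.sub_apply, red_sub, red_map, hP', red_aeval, sub_self])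
      have hχE : χ ∈ E := by
        rw [hE]
        intro m
        have hp : (p : ℤ_[p]) • (χ (φ m)) = (p : ℤ_[p]) • (φ (χ m)) := by
          have e1 : ∀ x, (p : ℤ_[p]) • χ x = ψ x - aeval φ P x := by
            intro x
            have := LinearMap.congr_fun hχ x
            rw [LinearMap.smul_apply] at this
            rw [← this]; simp
          rw [← map_smul φ (p : ℤ_[p]) (χ m), e1, e1, map_sub, (hE ψ).mp hψ m, (hE _).mp (hPE P) m]
        exact smul_right_injective M pne hp
      have e : ψ = aeval φ P + (p : ℤ_[p]) • χ := by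
        rw [← hχ]; abel
      rw [e]
      exact Submodule.add_mem_sup ⟨P, rfl⟩ (Submodule.smul_mem_smul pmem hχE)
    intro ψ hψ
    obtain ⟨P, hP⟩ := hle ((hE ψ).mpr hψ)
    exact ⟨P, hP.symm⟩
  have hsepQ : (φ.baseChange ℚ_[p]).charpoly.Separable := by
    rw [LinearMap.charpoly_baseChange]; exact hsep.map
  refine ⟨hsep, hcom, hsepQ, ?_, ?_⟩
  · exact Module.End.isSemisimple_of_squarefree_aeval_eq_zero hsepQ.squarefree
      (LinearMap.aeval_self_charpoly _)
  · intro ψ hψ
    obtain ⟨s, ψ', hs, hψ1, hψ2⟩ := lift ψ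
    obtain ⟨P, hP⟩ := hcom ψ' (by
      intro m
      have e : (1 : ℚ_[p]) ⊗ₜ[ℤ_[p]] (ψ' (φ m) - φ (ψ' m)) = 0 := by
        rw [TensorProduct.tmul_sub, ← hψ1, ← LinearMap.baseChange_tmul, ← LinearMap.baseChange_tmul,
          hψ, ← hψ1 m]
        have : ∀ (x : ℚ_[p] ⊗[ℤ_[p]] M), (φ.baseChange ℚ_[p]) (s • x) =
            s • (φ.baseChange ℚ_[p]) x := by
          intro x
          rw [← algebraMap_smul ℚ_[p] s x, map_smul, algebraMap_smul]
        rw [this, sub_self]
      exact sub_eq_zero.mp (inj e))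
    have hs' : (s : ℚ_[p]) ≠ 0 := by simpa using hs
    have hbase : ψ'.baseChange ℚ_[p] =
        aeval (φ.baseChange ℚ_[p]) (P.map (algebraMap ℤ_[p] ℚ_[p])) := by
      rw [Polynomial.aeval_map_algebraMap]
      have : φ.baseChange ℚ_[p] = Module.End.baseChangeHom ℤ_[p] ℚ_[p] M φ := rfl
      rw [this, Polynomial.aeval_algHom_apply, ← hP]
      rfl
    refine ⟨C ((s : ℚ_[p])⁻¹) * P.map (algebraMap ℤ_[p] ℚ_[p]), ?_⟩
    apply LinearMap.ext
    intro w
    have e : (s : ℚ_[p]) • ψ w = aeval (φ.baseChange ℚ_[p]) (P.map (algebraMap ℤ_[p] ℚ_[p])) w := by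
      rw [← hbase, ← hψ2 w, ← algebraMap_smul ℚ_[p] s (ψ w)]; rfl
    rw [map_mul, aeval_C, Module.End.mul_apply, Module.algebraMap_end_apply, ← e, smul_smul,
      inv_mul_cancel₀ hs', one_smul]

end Pool.Agent.Q45.GM.JLIN2
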