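import Pool.Agent.Q45.GM.StmL

/-!
# Project GM, job GM-LIN5 (helper285)
-/

set_option autoImplicit false
set_option linter.all false

namespace Pool.Agent.Q45.GM.JLIN5

open scoped Pointwise

theorem span_ne_top (p : ℕ) [Fact p.Prime] : Ideal.span {(p : ℤ_[p])} ≠ ⊤ := by
  rw [← PadicInt.maximalIdeal_eq_span_p]
  exact (IsLocalRing.maximalIdeal.isMaximal _).ne_top

/-- the divisibility of a nonzero element by powers of `p` is bounded -/
theorem exists_max {p : ℕ} [Fact p.Prime] {M : Type} [AddCommGroup M] [Module ℤ_[p] M]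
    [Module.Finite ℤ_[p] M] (x : M) (hx : x ≠ 0) :
    ∃ (r : ℕ) (y : M), x = (p : ℤ_[p]) ^ r • y ∧ ¬ ∃ y', y = (p : ℤ_[p]) • y' := by
  by_contra hcon
  push Not at hcon
  have h1 : ∀ r : ℕ, ∃ y : M, x = (p : ℤ_[p]) ^ r • y := by
    intro r
    induction r with
    | zero => exact ⟨x, by rw [pow_zero, one_smul]⟩
    | succ r ih =>
      obtain ⟨y, hy⟩ := ih
      obtain ⟨y', hy'⟩ := hcon r y hy
      refine ⟨y', ?_⟩
      rw [hy, hy', smul_smul, pow_succ]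
  have h2 : x ∈ (⨅ i : ℕ, Ideal.span {(p : ℤ_[p])} ^ i • ⊤ : Submodule ℤ_[p] M) := by
    rw [Submodule.mem_iInf]
    intro i
    obtain ⟨y, hy⟩ := h1 i
    rw [hy]
    refine Submodule.smul_mem_smul ?_ Submodule.mem_top
    exact Ideal.pow_mem_pow (Ideal.mem_span_singleton_self _) i
  rw [Ideal.iInf_pow_smul_eq_bot_of_isLocalRing _ (span_ne_top p), Submodule.mem_bot] at h2
  exact hx h2

theorem main : Lin5 := by
  intro p _ M _ _ _ _ Φ hirr U hU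
  by_cases hU0 : U = ⊥
  · exact Or.inl hU0
  right
  obtain ⟨u, hu, hu0⟩ := Submodule.exists_mem_ne_zero_of_ne_bot hU0
  obtain ⟨r, y, hy, hy'⟩ := exists_max (p := p) u hu0
  refine ⟨r, ?_⟩
  let U₁ : Submodule ℤ_[p] M := U.comap (LinearMap.lsmul ℤ_[p] M ((p : ℤ_[p]) ^ r))
  have hU₁ : ∀ m, m ∈ U₁ ↔ (p : ℤ_[p]) ^ r • m ∈ U := fun m => Iff.rfl
  obtain ⟨P, hPd⟩ : ∃ P : Submodule ℤ_[p] M, P = Ideal.span {(p : ℤ_[p])} • ⊤ := ⟨_, rfl⟩
  have hP : ∀ m, m ∈ P ↔ ∃ m', m = (p : ℤ_[p]) • m' := by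
    intro m
    rw [hPd, Submodule.ideal_span_singleton_smul, Submodule.mem_smul_pointwise_iff_exists]
    constructor
    · rintro ⟨m', -, h⟩
      exact ⟨m', h.symm⟩
    · rintro ⟨m', h⟩
      exact ⟨m', Submodule.mem_top, h.symm⟩
  have hst : ∀ φ ∈ Φ, ∀ m ∈ U₁ ⊔ P, φ m ∈ U₁ ⊔ P := by
    intro φ hφ m hm
    obtain ⟨a, ha, b, hb, rfl⟩ := Submodule.mem_sup.1 hm
    rw [map_add]
    refine Submodule.add_mem_sup ?_ ?_
    · rw [hU₁, ← map_smul]
      exact hU φ hφ _ ((hU₁ a).1 ha)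
    · obtain ⟨b', rfl⟩ := (hP b).1 hb
      rw [hP, map_smul]
      exact ⟨_, rfl⟩
  have hyU : y ∈ U₁ := by
    rw [hU₁, ← hy]
    exact hu
  have htop : U₁ ⊔ P = ⊤ := by
    refine (hirr (U₁ ⊔ P) (fun m => Submodule.mem_sup_right ((hP _).2 ⟨m, rfl⟩)) hst).resolve_left ?_
    intro h
    exact hy' (h y (Submodule.mem_sup_left hyU))
  have hle : (⊤ : Submodule ℤ_[p] M) ≤ U₁ := by
    refine Submodule.le_of_le_smul_of_le_jacobson_bot (I := Ideal.span {(p : ℤ_[p])})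
      Module.Finite.fg_top ?_ ?_
    · rw [IsLocalRing.jacobson_eq_maximalIdeal _ bot_ne_top, PadicInt.maximalIdeal_eq_span_p]
    · rw [← hPd, htop]
  intro m
  exact (hU₁ m).1 (hle Submodule.mem_top)

end Pool.Agent.Q45.GM.JLIN5
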