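import Pool.Agent.Q45.GM.StmL
import Pool.Agent.Q45.GM.J.LIN5

/-!
# Project GM, job GM-LIN7 (helper285)
-/

set_option autoImplicit false
set_option linter.all false

namespace Pool.Agent.Q45.GM.JLIN7

open Pool.Agent.Q45.GM.JLIN5

variable {M : Type} [AddCommGroup M] [Module ℤ_[2] M] [Module.Free ℤ_[2] M] [Module.Finite ℤ_[2] M]

theorem two_ne : (2 : ℤ_[2]) ≠ 0 := by
  intro h
  have : ((2 : ℕ) : ℤ_[2]) = 0 := by exact_mod_cast h
  rw [Nat.cast_eq_zero] at this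
  omega

theorem odd_unit (j : ℕ) (hj : Odd j) : IsUnit ((j : ℕ) : ℤ_[2]) := by
  have h1 : ¬ ((2 : ℕ) : ℤ_[2]) ∣ (j : ℤ_[2]) := by
    intro h
    have h2 : PadicInt.toZMod (j : ℤ_[2]) = 0 := by
      obtain ⟨c, hc⟩ := h
      rw [hc, map_mul, map_natCast, ZMod.natCast_self, zero_mul]
    rw [map_natCast, ZMod.natCast_eq_zero_iff] at h2
    obtain ⟨a, ha⟩ := hj
    omega
  by_contra h2
  have h3 : (j : ℤ_[2]) ∈ IsLocalRing.maximalIdeal ℤ_[2] := by
    rw [IsLocalRing.mem_maximalIdeal]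
    exact h2
  rw [PadicInt.maximalIdeal_eq_span_p, Ideal.mem_span_singleton] at h3
  exact h1 h3

/-- powers are congruent to one modulo four -/
theorem pow_mod (χ : M →ₗ[ℤ_[2]] M) (h : ∀ m, ∃ m', χ m - m = (4 : ℤ_[2]) • m') (i : ℕ) :
    ∀ m, ∃ m', (χ ^ i) m - m = (4 : ℤ_[2]) • m' := by
  induction i with
  | zero => intro m; exact ⟨0, by simp⟩
  | succ i ih =>
    intro m
    obtain ⟨a, ha⟩ := ih m
    obtain ⟨b, hb⟩ := h ((χ ^ i) m)
    refine ⟨a + b, ?_⟩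
    rw [pow_succ', Module.End.mul_apply, smul_add, ← ha, ← hb]
    abel

theorem geom (χ : M →ₗ[ℤ_[2]] M) (m : M) (j : ℕ) :
    ∑ i ∈ Finset.range j, (χ ^ i) (χ m - m) = (χ ^ j) m - m := by
  induction j with
  | zero => simp
  | succ j ih =>
    rw [Finset.sum_range_succ, ih, map_sub, pow_succ, Module.End.mul_apply]
    abel

theorem odd_case (χ : M →ₗ[ℤ_[2]] M) (h : ∀ m, ∃ m', χ m - m = (4 : ℤ_[2]) • m') (j : ℕ)
    (hj : Odd j) (m : M) (hm : (χ ^ j) m = m) : χ m = m := by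
  by_contra hne
  have hx : χ m - m ≠ 0 := sub_ne_zero.2 hne
  obtain ⟨s, y, hy, hy'⟩ := exists_max (p := 2) (χ m - m) hx
  have h1 := geom χ m j
  rw [hm, sub_self, hy] at h1
  simp only [map_smul] at h1
  rw [← Finset.smul_sum] at h1
  have h2 : ∑ i ∈ Finset.range j, (χ ^ i) y = 0 := by
    refine (smul_eq_zero.1 h1).resolve_left (pow_ne_zero _ ?_)
    exact_mod_cast two_ne
  choose a ha using fun i => pow_mod χ h i y
  have h3 : ∀ i, (χ ^ i) y = y + (4 : ℤ_[2]) • a i := fun i => by rw [← ha i]; abel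
  simp only [h3] at h2
  rw [Finset.sum_add_distrib, Finset.sum_const, Finset.card_range, ← Finset.smul_sum] at h2
  obtain ⟨v, hv⟩ := (odd_unit j hj).exists_left_inv
  apply hy'
  refine ⟨-((2 * v) • ∑ i ∈ Finset.range j, a i), ?_⟩
  have h4 : (j : ℤ_[2]) • y = -((4 : ℤ_[2]) • ∑ i ∈ Finset.range j, a i) := by
    rw [Nat.cast_smul_eq_nsmul]
    exact eq_neg_of_add_eq_zero_left h2
  have h5 := congrArg (fun z => v • z) h4
  simp only [smul_smul, smul_neg, hv, one_smul] at h5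
  rw [h5, smul_neg, smul_smul]
  congr 2
  push_cast
  ring

theorem two_case (χ : M →ₗ[ℤ_[2]] M) (h : ∀ m, ∃ m', χ m - m = (4 : ℤ_[2]) • m')
    (m : M) (hm : (χ ^ 2) m = m) : χ m = m := by
  by_contra hne
  have hx : χ m - m ≠ 0 := sub_ne_zero.2 hne
  obtain ⟨s, y, hy, hy'⟩ := exists_max (p := 2) (χ m - m) hx
  have h1 := geom χ m 2
  rw [hm, sub_self, hy] at h1
  simp only [map_smul] at h1
  rw [← Finset.smul_sum] at h1
  have h2 : ∑ i ∈ Finset.range 2, (χ ^ i) y = 0 := by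
    refine (smul_eq_zero.1 h1).resolve_left (pow_ne_zero _ ?_)
    exact_mod_cast two_ne
  rw [Finset.sum_range_succ, Finset.sum_range_one, pow_zero, pow_one, Module.End.one_apply] at h2
  obtain ⟨a, ha⟩ := h y
  apply hy'
  refine ⟨-a, ?_⟩
  have h3 : (2 : ℤ_[2]) • (y - ((2 : ℕ) : ℤ_[2]) • (-a)) = 0 := by
    have h4 : (2 : ℤ_[2]) • (y - ((2 : ℕ) : ℤ_[2]) • (-a)) = y + χ y := by
      have h5 : χ y = y + (4 : ℤ_[2]) • a := by rw [← ha]; abel
      rw [h5]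
      push_cast
      module
    rw [h4, h2]
  exact sub_eq_zero.1 ((smul_eq_zero.1 h3).resolve_left two_ne)

theorem gen (j : ℕ) : ∀ (χ : M →ₗ[ℤ_[2]] M), (∀ m, ∃ m', χ m - m = (4 : ℤ_[2]) • m') → 0 < j →
    ∀ m, (χ ^ j) m = m → χ m = m := by
  induction j using Nat.strong_induction_on with
  | _ j ih =>
    intro χ h hj m hm
    rcases Nat.even_or_odd j with ⟨i, hi⟩ | ho
    · have h1 : ((χ ^ i) ^ 2) m = m := by
        rw [← pow_mul, mul_two, ← hi]
        exact hm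
      exact ih i (by omega) χ h (by omega) m (two_case (χ ^ i) (pow_mod χ h i) m h1)
    · exact odd_case χ h j ho m hm

theorem main : Lin7 := by
  intro M _ _ _ _ ψ hψ m j hj hm
  refine gen j (ψ ^ 2) (fun n => ?_) hj m ?_
  · obtain ⟨a, ha⟩ := hψ n
    obtain ⟨b, hb⟩ := hψ a
    refine ⟨a + b, ?_⟩
    have h1 : ψ n = n + (2 : ℤ_[2]) • a := by rw [← ha]; abel
    have h2 : ψ a = a + (2 : ℤ_[2]) • b := by rw [← hb]; abel
    rw [pow_two, Module.End.mul_apply, h1, map_add, map_smul, h1, h2]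
    module
  · rw [← pow_mul, mul_comm, pow_mul, pow_two, Module.End.mul_apply, hm, hm]

end Pool.Agent.Q45.GM.JLIN7
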