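import Pool.Agent.Q45.GM.StmL

/-!
# Project GM, job GM-LIN6 (helper285)
-/

set_option autoImplicit false
set_option linter.all false

namespace Pool.Agent.Q45.GM.JLIN6

theorem main : Lin6 := by
  intro p hp M _ _ _ _ X _ κ N hκ hcard
  let b := Module.finBasis ℤ_[p] M
  obtain ⟨n, hn⟩ : ∃ n, n = Module.finrank ℤ_[p] M := ⟨_, rfl⟩
  let f : M →+ (Fin (Module.finrank ℤ_[p] M) → ZMod p) :=
    { toFun := fun m i => PadicInt.toZMod (b.repr m i)
      map_zero' := by
        funext i
        simp
      map_add' := by
        intro a c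
        funext i
        simp }
  have hf : ∀ m i, f m i = PadicInt.toZMod (b.repr m i) := fun m i => rfl
  have hsurj : Function.Surjective f := by
    intro y
    choose c hc using fun i => ZMod.ringHom_surjective (PadicInt.toZMod (p := p)) (y i)
    refine ⟨b.equivFun.symm c, ?_⟩
    funext i
    rw [hf]
    have h1 : b.repr (b.equivFun.symm c) i = c i := by
      have h2 := b.equivFun.apply_symm_apply c
      exact congrFun h2 i
    rw [h1, hc]
  have hker : f.ker = κ.ker := by
    ext m
    rw [AddMonoidHom.mem_ker, AddMonoidHom.mem_ker, hκ]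
    constructor
    · intro h
      have h1 : ∀ i, ∃ c, b.repr m i = (p : ℤ_[p]) * c := by
        intro i
        have h2 : b.repr m i ∈ RingHom.ker (PadicInt.toZMod (p := p)) := by
          rw [RingHom.mem_ker, ← hf, h]
          rfl
        rw [PadicInt.ker_toZMod, PadicInt.maximalIdeal_eq_span_p, Ideal.mem_span_singleton] at h2
        exact h2
      choose c hc using h1
      refine ⟨∑ i, c i • b i, ?_⟩
      conv_lhs => rw [← b.sum_repr m]
      rw [Finset.smul_sum]
      refine Finset.sum_congr rfl fun i _ => ?_
      rw [hc, mul_smul]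
    · rintro ⟨m', rfl⟩
      funext i
      rw [hf, map_smul, Finsupp.smul_apply, smul_eq_mul, map_mul]
      have h1 : PadicInt.toZMod (p : ℤ_[p]) = 0 := by
        rw [map_natCast]
        exact ZMod.natCast_self p
      rw [h1, zero_mul]
      rfl
  have h1 : Nat.card (M ⧸ κ.ker) = Nat.card κ.range :=
    Nat.card_congr (QuotientAddGroup.quotientKerEquivRange κ).toEquiv
  have h2 : Nat.card (M ⧸ f.ker) = Nat.card (Fin (Module.finrank ℤ_[p] M) → ZMod p) :=
    Nat.card_congr (QuotientAddGroup.quotientKerEquivOfSurjective f hsurj).toEquiv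
  rw [hker, h1, hcard, Nat.card_fun, Nat.card_zmod, Nat.card_eq_fintype_card, Fintype.card_fin] at h2
  exact (Nat.pow_right_injective hp.out.two_le h2).symm

end Pool.Agent.Q45.GM.JLIN6
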