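import Pool.Agent.Q45.GM.StmK

/-!
# Project GM, job LIFTS: extension of constant automorphisms
-/

set_option autoImplicit false

open Polynomial

namespace Pool.Agent.Q45.GM.JLIFTS

/-- `b` over the rational functions -/
noncomputable def bb {k k' : Type} [Field k] [Field k'] [Algebra k k'] (b : k[X]) :
    FractionRing k'[X] := algebraMap k'[X] (FractionRing k'[X]) (b.map (algebraMap k k'))

theorem not_sq {k k' : Type} [Field k] [Field k'] [Algebra k k'] (b : k[X]) (hb : b.Separable)
    (hd : 0 < b.natDegree) (c : FractionRing k'[X]) : c ^ 2 ≠ bb (k' := k') b := by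
  intro h
  have hint : IsIntegral k'[X] c := by
    refine IsIntegral.of_pow (n := 2) (by norm_num) ?_
    rw [h]
    exact isIntegral_algebraMap
  obtain ⟨w, hw⟩ := IsIntegrallyClosed.isIntegral_iff.1 hint
  have h1 : w ^ 2 = b.map (algebraMap k k') := by
    apply IsFractionRing.injective k'[X] (FractionRing k'[X])
    rw [map_pow, hw, h]
    rfl
  have h2 : Squarefree (b.map (algebraMap k k')) := (hb.map).squarefree
  have h3 : IsUnit w := h2 w (by rw [← h1, sq])
  have h4 : (b.map (algebraMap k k')).natDegree = 0 := by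
    rw [← h1]
    exact natDegree_eq_zero_of_isUnit (h3.pow 2)
  rw [natDegree_map] at h4
  omega

theorem irr {k k' : Type} [Field k] [Field k'] [Algebra k k'] (b : k[X]) (hb : b.Separable)
    (hd : 0 < b.natDegree) : Irreducible (X ^ 2 - C (bb (k' := k') b)) :=
  X_pow_sub_C_irreducible_of_prime Nat.prime_two fun c => not_sq b hb hd c

theorem build {k k' K F : Type} [Field k] [Field k'] [Algebra k k'] [Field K] [Algebra k[X] K]
    [Field F] [Algebra K F] (b : k[X]) (β : K) (hb : b.Separable)
    (hd : 0 < b.natDegree) (hβ : β ^ 2 = algebraMap k[X] K b)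
    (hK : Subfield.closure (Set.range (algebraMap k[X] K) ∪ {β}) = ⊤)
    (T : Set F) (hT : IntermediateField.adjoin K T = ⊤)
    (ι : k'[X] →+* F) (hι : Function.Injective ι)
    (hc : ∀ p : k[X], algebraMap K F (algebraMap k[X] K p) = ι (p.map (algebraMap k k')))
    (hTr : ∀ x ∈ T, ∃ y : k', ι (C y) = x) :
    ∃ g : AdjoinRoot (X ^ 2 - C (bb (k' := k') b)) →+* F, Function.Bijective g ∧
      (∀ p : k'[X], g (AdjoinRoot.of _ (algebraMap k'[X] (FractionRing k'[X]) p)) = ι p) ∧
      g (AdjoinRoot.root _) = algebraMap K F β := by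
  haveI : Fact (Irreducible (X ^ 2 - C (bb (k' := k') b))) := ⟨irr b hb hd⟩
  let f : FractionRing k'[X] →+* F := IsFractionRing.lift hι
  have hf : ∀ p : k'[X], f (algebraMap k'[X] (FractionRing k'[X]) p) = ι p := fun p =>
    IsFractionRing.lift_algebraMap hι p
  have hroot : (X ^ 2 - C (bb (k' := k') b)).eval₂ f (algebraMap K F β) = 0 := by
    rw [eval₂_sub, eval₂_X_pow, eval₂_C]
    unfold bb
    rw [hf, ← hc, ← map_pow, hβ, sub_self]
  let g : AdjoinRoot (X ^ 2 - C (bb (k' := k') b)) →+* F :=
    AdjoinRoot.lift f (algebraMap K F β) hroot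
  have hg1 : ∀ p : k'[X], g (AdjoinRoot.of _ (algebraMap k'[X] (FractionRing k'[X]) p)) = ι p := by
    intro p
    change AdjoinRoot.lift f (algebraMap K F β) hroot (AdjoinRoot.of _ _) = _
    rw [AdjoinRoot.lift_of, hf]
  have hg2 : g (AdjoinRoot.root _) = algebraMap K F β := AdjoinRoot.lift_root hroot
  refine ⟨g, ⟨g.injective, ?_⟩, hg1, hg2⟩
  have hKr : ∀ a : K, algebraMap K F a ∈ g.fieldRange := by
    have h1 : Subfield.closure (Set.range (algebraMap k[X] K) ∪ {β}) ≤
        g.fieldRange.comap (algebraMap K F) := by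
      rw [Subfield.closure_le]
      rintro x (⟨p, rfl⟩ | hx)
      · change algebraMap K F (algebraMap k[X] K p) ∈ g.fieldRange
        rw [hc]
        exact ⟨_, hg1 _⟩
      · rw [Set.mem_singleton_iff] at hx
        rw [hx]
        exact ⟨_, hg2⟩
    rw [hK] at h1
    intro a
    exact h1 (Subfield.mem_top a)
  have htop : (⊤ : IntermediateField K F) ≤ g.fieldRange.toIntermediateField hKr := by
    rw [← hT, IntermediateField.adjoin_le_iff]
    intro x hx
    obtain ⟨y, hy⟩ := hTr x hx
    change x ∈ g.fieldRange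
    exact ⟨_, (hg1 (C y)).trans hy⟩
  intro x
  have hx : x ∈ g.fieldRange := htop (IntermediateField.mem_top)
  obtain ⟨z, hz⟩ := hx
  exact ⟨z, hz⟩

theorem main : Pool.Agent.Q45.GM.LiftS := by
  intro k k' K F _ _ _ _ _ _ _ _ b β _ hb hd _ hβ hK hι hc hT τ
  obtain ⟨g, hgb, hg1, hg2⟩ := build b β hb hd hβ hK _ hT (algebraMap k'[X] F) hι hc (by
    rintro x ⟨y, hy⟩
    exact ⟨y, hy⟩)
  have hτ : Function.Injective ((algebraMap k'[X] F).comp (mapRingHom (τ : k' →+* k'))) := by
    rw [RingHom.coe_comp]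
    exact hι.comp (map_injective _ τ.injective)
  have hmap : ∀ p : k[X], (p.map (algebraMap k k')).map (τ : k' →+* k') =
      p.map (algebraMap k k') := by
    intro p
    rw [Polynomial.map_map]
    congr 1
    ext x
    exact τ.commutes x
  obtain ⟨g', hgb', hg1', hg2'⟩ := build b β hb hd hβ hK _ hT _ hτ (by
    intro p
    rw [RingHom.comp_apply, coe_mapRingHom, hmap]
    exact hc p) (by
    rintro x ⟨y, hy⟩
    refine ⟨τ.symm y, ?_⟩
    rw [← hy, RingHom.comp_apply, coe_mapRingHom, map_C]
    change algebraMap k'[X] F (C (τ (τ.symm y))) = _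
    rw [AlgEquiv.apply_symm_apply]
    rfl)
  let e : F ≃+* F := (RingEquiv.ofBijective g hgb).symm.trans (RingEquiv.ofBijective g' hgb')
  have he : ∀ z, e (g z) = g' z := by
    intro z
    change g' ((RingEquiv.ofBijective g hgb).symm (g z)) = g' z
    congr 1
    exact (RingEquiv.ofBijective g hgb).symm_apply_apply z
  have heK : ∀ a : K, e (algebraMap K F a) = algebraMap K F a := by
    have h1 : Set.EqOn ((e : F →+* F).comp (algebraMap K F)) (algebraMap K F)
        (Set.range (algebraMap k[X] K) ∪ {β}) := by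
      rintro x (⟨p, rfl⟩ | hx)
      · change e (algebraMap K F (algebraMap k[X] K p)) = algebraMap K F (algebraMap k[X] K p)
        rw [hc, ← hg1, he, hg1', RingHom.comp_apply, coe_mapRingHom, hmap, hg1]
      · rw [Set.mem_singleton_iff] at hx
        rw [hx]
        change e (algebraMap K F β) = algebraMap K F β
        rw [← hg2, he, hg2', hg2]
    have h2 := RingHom.eqOn_field_closure h1
    rw [hK] at h2
    intro a
    exact h2 (Subfield.mem_top a)
  refine ⟨AlgEquiv.ofRingEquiv (f := e) heK, fun x => ?_⟩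
  change e (algebraMap k'[X] F (C x)) = _
  rw [← hg1, he, hg1', RingHom.comp_apply, coe_mapRingHom, map_C]
  rfl

end Pool.Agent.Q45.GM.JLIFTS
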