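import Pool.Agent.Q45.GM.StmK

/-!
# Project GM, job LIFTT: extension of automorphisms to the separable closure
-/

set_option autoImplicit false

namespace Pool.Agent.Q45.GM.JLIFTT

theorem ext_hom {F L M : Type} [Field F] [Field L] [Algebra F L] [Algebra.IsSeparable F L]
    [Field M] [IsSepClosed M] (φ : F →+* M) :
    ∃ T : L →+* M, ∀ x, T (algebraMap F L x) = φ x := by
  letI : Algebra F M := φ.toAlgebra
  exact ⟨(IsSepClosed.lift : L →ₐ[F] M).toRingHom, fun x =>
    (IsSepClosed.lift : L →ₐ[F] M).commutes x⟩

theorem bij {F L : Type} [Field F] [Field L] [Algebra F L] [Algebra.IsAlgebraic F L]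
    (T : L →+* L) (h : ∀ x : F, T (algebraMap F L x) = algebraMap F L x) :
    Function.Bijective T := by
  let T' : L →ₐ[F] L := { T with commutes' := h }
  exact Algebra.IsAlgebraic.algHom_bijective T'

theorem main : Pool.Agent.Q45.GM.LiftT := by
  intro K F _ _ _ s
  obtain ⟨T, hT⟩ := ext_hom (L := SeparableClosure F)
    ((algebraMap F (SeparableClosure F)).comp (s : F →+* F))
  obtain ⟨T', hT'⟩ := ext_hom (L := SeparableClosure F)
    ((algebraMap F (SeparableClosure F)).comp (s.symm : F →+* F))
  have hT1 : ∀ x : F, T (algebraMap F (SeparableClosure F) x) =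
      algebraMap F (SeparableClosure F) (s x) := hT
  have hT2 : ∀ x : F, T' (algebraMap F (SeparableClosure F) x) =
      algebraMap F (SeparableClosure F) (s.symm x) := hT'
  have h1 : Function.Bijective (T'.comp T) := by
    refine bij (F := F) _ fun x => ?_
    rw [RingHom.comp_apply, hT1, hT2, AlgEquiv.symm_apply_apply]
  have h2 : Function.Bijective (T.comp T') := by
    refine bij (F := F) _ fun x => ?_
    rw [RingHom.comp_apply, hT2, hT1, AlgEquiv.apply_symm_apply]
  have h3 : Function.Bijective T := by
    constructor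
    · intro a b hab
      refine h1.1 ?_
      rw [RingHom.comp_apply, RingHom.comp_apply, hab]
    · intro y
      obtain ⟨x, hx⟩ := h2.2 y
      exact ⟨T' x, hx⟩
  have hK : ∀ a : K, T (algebraMap K (SeparableClosure F) a) =
      algebraMap K (SeparableClosure F) a := by
    intro a
    rw [IsScalarTower.algebraMap_apply K F (SeparableClosure F), hT1, AlgEquiv.commutes]
  let T0 : SeparableClosure F →ₐ[K] SeparableClosure F := { T with commutes' := hK }
  exact ⟨AlgEquiv.ofBijective T0 h3, hT1⟩

end Pool.Agent.Q45.GM.JLIFTT
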