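import Pool.Agent.Q45.GM.StmJ

/-!
# Job GM-HYP2 (project GM of helper45; written by helper98)
-/

set_option autoImplicit false

open Polynomial
open scoped Classical

namespace Pool.Agent.Q45.GM.JHYP2

/-- the multiplicity of a root in the product over `S` -/
theorem mult_prod {K : Type} [Field K] (S : Finset K) (r : K) :
    rootMultiplicity r (∏ r ∈ S, (X - C r)) = if r ∈ S then 1 else 0 := by
  rw [← count_roots, roots_prod_X_sub_C]
  by_cases h : r ∈ S
  · rw [if_pos h]
    exact Multiset.count_eq_one_of_mem S.nodup h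
  · rw [if_neg h]
    exact Multiset.count_eq_zero_of_notMem h

theorem mult_sep {K : Type} [Field K] {h : K[X]} (hs : h.Separable) {r : K} (hr : r ∈ h.roots) :
    rootMultiplicity r h = 1 := by
  rw [← count_roots]
  exact Multiset.count_eq_one_of_mem (nodup_roots hs) hr

theorem mult_sq {K : Type} [Field K] {A : K[X]} (hA : A ≠ 0) (r : K) :
    rootMultiplicity r (A ^ 2) = 2 * rootMultiplicity r A := by
  rw [pow_two, rootMultiplicity_mul (mul_ne_zero hA hA)]
  ring

theorem main : Pool.Agent.Q45.GM.Hyp2 := by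
  intro k' N _ _ _ h y h2 hspl hsep hdeg hh S s hS hs
  have hh0 : h ≠ 0 := by
    rintro rfl
    simp at hdeg
  set P : k'[X] := ∏ r ∈ S, (X - C r) with hP
  have hP0 : P ≠ 0 := by
    rw [hP]
    exact Finset.prod_ne_zero_iff.2 fun r _ => X_sub_C_ne_zero r
  obtain ⟨A, B, D, hD, hE⟩ := hh.gen s
  -- the square of the relation
  have h3 : algebraMap k'[X] N (D ^ 2 * P) =
      algebraMap k'[X] N (A ^ 2 + B ^ 2 * h) + algebraMap k'[X] N (2 * A * B) * y := by
    have e1 : algebraMap k'[X] N (D ^ 2 * P) = (algebraMap k'[X] N D * s) ^ 2 := by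
      rw [map_mul, map_pow, ← hs]
      ring
    rw [e1, hE]
    rw [map_add, map_mul, map_mul, map_mul, map_pow, map_pow, map_ofNat, ← hh.sq]
    ring
  have hAB : A = 0 ∨ B = 0 := by
    by_contra hne
    push Not at hne
    obtain ⟨r, hr⟩ : ∃ r, r ∈ h.roots := by
      have hc : h.roots.card = h.natDegree := (splits_iff_card_roots.1 hspl)
      have : 0 < h.roots.card := by rw [hc]; exact hdeg
      exact Multiset.card_pos_iff_exists_mem.1 this
    set E := D ^ 2 * P - (A ^ 2 + B ^ 2 * h) with hEdef
    have h4 : algebraMap k'[X] N E = algebraMap k'[X] N (2 * A * B) * y := by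
      rw [hEdef, map_sub, h3]
      ring
    have h5 : E ^ 2 = (2 * A * B) ^ 2 * h := by
      apply hh.inj
      rw [map_pow, h4, mul_pow, hh.sq, map_mul _ ((2 * A * B) ^ 2) h, map_pow]
    have h20 : (2 : k'[X]) ≠ 0 := by
      intro hc
      rw [show (2 : k'[X]) = C 2 from (map_ofNat C 2).symm, C_eq_zero] at hc
      exact h2 hc
    have hABne : 2 * A * B ≠ 0 := mul_ne_zero (mul_ne_zero h20 hne.1) hne.2
    have hE0 : E ≠ 0 := by
      intro hc
      rw [hc] at h5
      have : (2 * A * B) ^ 2 * h ≠ 0 := mul_ne_zero (pow_ne_zero _ hABne) hh0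
      exact this (by rw [← h5]; ring)
    have h6 := congrArg (rootMultiplicity r) h5
    rw [mult_sq hE0, rootMultiplicity_mul (mul_ne_zero (pow_ne_zero _ hABne) hh0), mult_sq hABne,
      mult_sep hsep hr] at h6
    omega
  rcases hAB with rfl | rfl
  · right
    have h4 : D ^ 2 * P = B ^ 2 * h := by
      apply hh.inj
      rw [h3]
      simp
    refine Finset.Subset.antisymm hS fun r hr => ?_
    rw [Multiset.mem_toFinset] at hr
    have hB : B ≠ 0 := by
      rintro rfl
      refine mul_ne_zero (pow_ne_zero 2 hD) hP0 ?_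
      rw [h4]
      ring
    have h6 := congrArg (rootMultiplicity r) h4
    rw [rootMultiplicity_mul (mul_ne_zero (pow_ne_zero _ hD) hP0), mult_sq hD,
      rootMultiplicity_mul (mul_ne_zero (pow_ne_zero _ hB) hh0), mult_sq hB, mult_sep hsep hr, hP,
      mult_prod] at h6
    by_contra hc
    rw [if_neg hc] at h6
    omega
  · left
    have h4 : D ^ 2 * P = A ^ 2 := by
      apply hh.inj
      rw [h3]
      simp
    rw [Finset.eq_empty_iff_forall_notMem]
    intro r hr
    have hA : A ≠ 0 := by
      rintro rfl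
      refine mul_ne_zero (pow_ne_zero 2 hD) hP0 ?_
      rw [h4]
      ring
    have h6 := congrArg (rootMultiplicity r) h4
    rw [rootMultiplicity_mul (mul_ne_zero (pow_ne_zero _ hD) hP0), mult_sq hD, mult_sq hA, hP,
      mult_prod, if_pos hr] at h6
    omega

end Pool.Agent.Q45.GM.JHYP2
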