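import Pool.Agent.Q45.GM.StmJ

/-!
# Job GM-FIN (project GM of helper45; written by helper98)
-/

set_option autoImplicit false

open scoped Classical

namespace Pool.Agent.Q45.GM.JFIN

variable {p : ℕ} [hp : Fact p.Prime]

/-- a power series in `p` converges -/
theorem series (a : ℕ → ℤ_[p]) : ∃ x : ℤ_[p], ∀ n : ℕ, ∃ y : ℤ_[p],
    x - ∑ i ∈ Finset.range n, a i * (p : ℤ_[p]) ^ i = (p : ℤ_[p]) ^ n * y := by
  set f : ℕ → ℤ_[p] := fun n => ∑ i ∈ Finset.range n, a i * (p : ℤ_[p]) ^ i with hf
  have hpre : IsPrecomplete (IsLocalRing.maximalIdeal ℤ_[p]) ℤ_[p] := inferInstance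
  have h1 : ∀ {m n : ℕ}, m ≤ n →
      f m ≡ f n [SMOD ((IsLocalRing.maximalIdeal ℤ_[p]) ^ m • ⊤ : Submodule ℤ_[p] ℤ_[p])] := by
    intro m n hmn
    rw [SModEq.sub_mem, smul_eq_mul, Ideal.mul_top, PadicInt.maximalIdeal_eq_span_p,
      Ideal.span_singleton_pow, Ideal.mem_span_singleton, ← neg_sub, dvd_neg]
    rw [hf]
    simp only
    rw [← Finset.sum_Ico_eq_sub _ hmn]
    refine Finset.dvd_sum fun i hi => ?_
    exact dvd_mul_of_dvd_right (pow_dvd_pow _ (Finset.mem_Ico.1 hi).1) _
  obtain ⟨x, hx⟩ := IsPrecomplete.prec hpre h1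
  refine ⟨x, fun n => ?_⟩
  have h2 := hx n
  rw [SModEq.sub_mem, smul_eq_mul, Ideal.mul_top, PadicInt.maximalIdeal_eq_span_p,
    Ideal.span_singleton_pow, Ideal.mem_span_singleton, ← neg_sub, dvd_neg] at h2
  exact h2

theorem main : Pool.Agent.Q45.GM.Fin1 := by
  intro p hp M _ _ E hE κ hκ hsep htf
  have hEf : Fintype (Set.range κ) := Fintype.ofFinite _
  -- representatives
  choose g hg using fun c : Set.range κ => c.2
  have hstep : ∀ m : M, ∃ m' : M, m - g ⟨κ m, m, rfl⟩ = (p : ℤ_[p]) • m' := by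
    intro m
    refine hκ _ _ ?_
    rw [hg]
  choose s hs using hstep
  have hfin : Module.Finite ℤ_[p] M := by
    refine ⟨⟨Finset.univ.image g, ?_⟩⟩
    rw [Submodule.eq_top_iff']
    intro m
    -- the expansion
    set c : ℕ → Set.range κ := fun i => ⟨κ (s^[i] m), s^[i] m, rfl⟩ with hc
    have hexp : ∀ n : ℕ, m = ∑ i ∈ Finset.range n, (p : ℤ_[p]) ^ i • g (c i) +
        (p : ℤ_[p]) ^ n • s^[n] m := by
      intro n
      induction n with
      | zero => simp
      | succ n ih =>
        rw [Finset.sum_range_succ, Function.iterate_succ_apply', pow_succ, mul_smul, ← hs,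
          smul_sub]
        rw [add_assoc, add_sub_cancel]
        exact ih
    choose x hx using fun e : Set.range κ => series (p := p) fun i => if c i = e then 1 else 0
    have hm : m = ∑ e, x e • g e := by
      rw [← sub_eq_zero]
      refine hsep _ fun n => ?_
      choose y hy using fun e => hx e n
      refine ⟨s^[n] m - ∑ e, y e • g e, ?_⟩
      have h1 : ∀ e, x e • g e = (∑ i ∈ Finset.range n, (if c i = e then 1 else 0) * (p : ℤ_[p]) ^ i) • g e +
          (p : ℤ_[p]) ^ n • (y e • g e) := by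
        intro e
        rw [← mul_smul, ← hy e, ← add_smul]
        congr 1
        ring
      have h2 : ∑ e, x e • g e = ∑ i ∈ Finset.range n, (p : ℤ_[p]) ^ i • g (c i) +
          (p : ℤ_[p]) ^ n • ∑ e, y e • g e := by
        rw [Finset.sum_congr rfl fun e _ => h1 e, Finset.sum_add_distrib, ← Finset.smul_sum]
        congr 1
        have h3 : ∀ e, (∑ i ∈ Finset.range n, (if c i = e then 1 else 0) * (p : ℤ_[p]) ^ i) • g e =
            ∑ i ∈ Finset.range n, if c i = e then (p : ℤ_[p]) ^ i • g e else 0 := by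
          intro e
          rw [Finset.sum_smul]
          refine Finset.sum_congr rfl fun i _ => ?_
          split_ifs <;> simp
        rw [Finset.sum_congr rfl fun e _ => h3 e, Finset.sum_comm]
        refine Finset.sum_congr rfl fun i _ => ?_
        rw [Finset.sum_ite_eq Finset.univ (c i), if_pos (Finset.mem_univ _)]
      rw [h2, smul_sub]
      nth_rewrite 1 [hexp n]
      abel
    rw [hm]
    refine Submodule.sum_mem _ fun e _ => Submodule.smul_mem _ _ (Submodule.subset_span ?_)
    rw [Finset.coe_image]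
    exact ⟨e, by simp, rfl⟩
  have htf' : ∀ (n : ℕ) (m : M), (p : ℤ_[p]) ^ n • m = 0 → m = 0 := by
    intro n
    induction n with
    | zero => simp
    | succ n ih =>
      intro m hm
      rw [pow_succ', mul_smul] at hm
      exact ih m (htf _ hm)
  have htors : Module.IsTorsionFree ℤ_[p] M := by
    refine ⟨fun r hr => ?_⟩
    have hr0 : r ≠ 0 := isRegular_iff_ne_zero.1 hr
    intro m m' hmm
    have h1 : r • (m - m') = 0 := by
      rw [smul_sub, sub_eq_zero]
      exact hmm
    rw [PadicInt.unitCoeff_spec hr0, mul_smul] at h1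
    have h2 : (p : ℤ_[p]) ^ r.valuation • (m - m') = 0 := by
      have h3 := congrArg (fun z => ((PadicInt.unitCoeff hr0)⁻¹ : ℤ_[p]ˣ).val • z) h1
      simp only [smul_zero, ← mul_smul] at h3
      rwa [← mul_assoc, Units.inv_mul, one_mul] at h3
    exact sub_eq_zero.1 (htf' _ _ h2)
  exact ⟨hfin, inferInstance⟩

end Pool.Agent.Q45.GM.JFIN
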