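import Pool.Agent.Q45.GM.J.Red

set_option autoImplicit false
set_option linter.all false

open scoped Classical TensorProduct
open Polynomial

namespace Pool.Agent.Q45.GM.JLIN1

open Pool.Agent.Q45.GM.JRed

/-- An endomorphism of a finite dimensional space with a cyclic functional:
the minimal polynomial is the characteristic polynomial. -/
theorem cyclic {K V : Type} [Field K] [AddCommGroup V] [Module K V] [Module.Finite K V]
    (f : V →ₗ[K] V) (e : V →ₗ[K] K) (h : ∀ v, (∀ i : ℕ, e ((f ^ i) v) = 0) → v = 0) :
    f.charpoly = minpoly K f := by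
  have hmon : (minpoly K f).Monic := minpoly.monic (Algebra.IsIntegral.isIntegral f)
  let d := (minpoly K f).natDegree
  let E : V →ₗ[K] (Fin d → K) := LinearMap.pi (fun i => e ∘ₗ (f ^ (i : ℕ)))
  have hE : Function.Injective E := by
    rw [← LinearMap.ker_eq_bot, LinearMap.ker_eq_bot']
    intro v hv
    apply h
    intro i
    have hE' : ∀ j : ℕ, j < d → e ((f ^ j) v) = 0 := fun j hj => congrFun hv ⟨j, hj⟩
    have hmod : f ^ i = aeval f ((X ^ i : K[X]) %ₘ minpoly K f) := by
      have h1 := Polynomial.modByMonic_add_div (X ^ i : K[X]) (minpoly K f)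
      have h2 := congrArg (aeval f) h1
      rw [map_add, map_mul, minpoly.aeval, zero_mul, add_zero] at h2
      rw [h2]; simp
    rw [hmod, Polynomial.aeval_eq_sum_range, LinearMap.sum_apply, map_sum]
    apply Finset.sum_eq_zero
    intro j hj
    rw [LinearMap.smul_apply, map_smul]
    by_cases hjd : j < d
    · rw [hE' j hjd, smul_zero]
    · have : ((X ^ i : K[X]) %ₘ minpoly K f).coeff j = 0 := by
        by_cases h1 : minpoly K f = 1
        · rw [h1, Polynomial.modByMonic_one]; simp
        · apply Polynomial.coeff_eq_zero_of_natDegree_lt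
          exact lt_of_lt_of_le (Polynomial.natDegree_modByMonic_lt _ hmon h1) (not_lt.mp hjd)
      rw [this, zero_smul]
  have hle : Module.finrank K V ≤ d := by
    have := LinearMap.finrank_le_finrank_of_injective hE
    rwa [Module.finrank_fin_fun] at this
  have hdvd := LinearMap.minpoly_dvd_charpoly f
  refine Polynomial.eq_of_monic_of_dvd_of_natDegree_le hmon (LinearMap.charpoly_monic f) hdvd ?_
  rw [LinearMap.charpoly_natDegree]
  exact hle

theorem main : Pool.Agent.Q45.GM.Lin1 := by
  intro p _ M _ _ _ _ φ ε Q' h1 h2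
  let b := Module.Free.chooseBasis ℤ_[p] M
  have hεp : ∀ m : M, ε ((p : ℤ_[p]) • m) = 0 := by
    intro m
    have : (p : ℤ_[p]) • m = p • m := Nat.cast_smul_eq_nsmul ℤ_[p] p m
    rw [this, map_nsmul]
    simp
  have hε : ∀ m m' : M, red b m = red b m' → ε m = ε m' := by
    intro m m' h
    obtain ⟨x, hx⟩ := red_eq_zero b (m := m - m') (by rw [red_sub, h, sub_self])
    have h3 : ε (m - m') = 0 := by rw [hx, hεp]
    rw [map_sub] at h3
    exact sub_eq_zero.mp h3
  let e0 : (Module.Free.ChooseBasisIndex ℤ_[p] M → ZMod p) →+ ZMod p :=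
    { toFun := fun v => ε (sec b v)
      map_zero' := by
        rw [← map_zero ε]
        apply hε
        rw [red_sec]
        funext i; simp [red]
      map_add' := by
        intro v w
        rw [← map_add]
        apply hε
        rw [red_sec, red_add, red_sec, red_sec] }
  let e := e0.toZModLinearMap p
  have he : ∀ m, e (red b m) = ε m := by
    intro m
    exact hε _ _ (red_sec b _)
  have hcyc := cyclic (redEnd b φ) e (by
    intro v hv
    have hv' : ∀ i : ℕ, ε ((φ ^ i) (sec b v)) = 0 := by
      intro i
      rw [← he, red_pow, red_sec]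
      exact hv i
    obtain ⟨m', hm'⟩ := h1 _ hv'
    rw [← red_sec b v, hm', red_p])
  rw [charpoly_red] at hcyc
  rw [hcyc]
  apply minpoly.dvd
  apply LinearMap.ext
  intro v
  rw [← red_sec b v, ← red_aeval]
  obtain ⟨m', hm'⟩ := h2 (sec b v)
  rw [hm', red_p]
  rfl

end Pool.Agent.Q45.GM.JLIN1
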