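import Pool.Agent.Q45.GM.StmL

/-! Project GM (helper45), job W3 (helper26): the number of elements of the module. -/

set_option autoImplicit false

open scoped Classical

namespace Pool.Agent.Q45.GM.JW3

open Pool.Agent.Q45.GM

variable {α : Type}

/-- the sums over the fibres -/
noncomputable def Phi (R : Finset α) (π : α → α) : (↥R → ZMod 2) →ₗ[ZMod 2] (↥(R.image π) → ZMod 2) where
  toFun e δ := ∑ r : R, if π r.1 = δ.1 then e r else 0
  map_add' e e' := by
    funext δ
    rw [Pi.add_apply, ← Finset.sum_add_distrib]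
    refine Finset.sum_congr rfl fun r _ => ?_
    split_ifs
    · rfl
    · rw [add_zero]
  map_smul' c e := by
    funext δ
    rw [Pi.smul_apply, RingHom.id_apply, Finset.smul_sum]
    refine Finset.sum_congr rfl fun r _ => ?_
    split_ifs
    · rfl
    · rw [smul_zero]

theorem phi_apply (R : Finset α) (π : α → α) (e : ↥R → ZMod 2) (δ : ↥(R.image π)) :
    Phi R π e δ = ∑ r : R, if π r.1 = δ.1 then e r else 0 := rfl

theorem phi_surj (R : Finset α) (π : α → α) : Function.Surjective (Phi R π) := by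
  intro t
  have hs : ∀ δ : ↥(R.image π), ∃ r : R, π r.1 = δ.1 := by
    intro δ
    obtain ⟨r, hr, h⟩ := Finset.mem_image.1 δ.2
    exact ⟨⟨r, hr⟩, h⟩
  choose s hs using hs
  refine ⟨fun r => if r = s ⟨π r.1, Finset.mem_image_of_mem π r.2⟩ then
    t ⟨π r.1, Finset.mem_image_of_mem π r.2⟩ else 0, ?_⟩
  funext δ
  rw [phi_apply, Finset.sum_eq_single (s δ)]
  · have h1 : (⟨π (s δ).1, Finset.mem_image_of_mem π (s δ).2⟩ : ↥(R.image π)) = δ :=
      Subtype.ext (hs δ)
    rw [if_pos (hs δ), h1, if_pos rfl]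
  · intro r _ hr
    by_cases h : π r.1 = δ.1
    · have h1 : (⟨π r.1, Finset.mem_image_of_mem π r.2⟩ : ↥(R.image π)) = δ := Subtype.ext h
      rw [if_pos h, h1, if_neg hr]
    · rw [if_neg h]
  · intro h
    exact absurd (Finset.mem_univ _) h

theorem sum_eq (R : Finset α) (π : α → α) (e : α → ZMod 2) (δ : α) :
    ∑ r ∈ R.filter (fun r => π r = δ), e r = ∑ r : R, if π r.1 = δ then e r.1 else 0 := by
  rw [Finset.sum_filter, ← Finset.sum_coe_sort]

/-- the module is the kernel -/
noncomputable def eqv (R : Finset α) (π : α → α) : WBal R π ≃ LinearMap.ker (Phi R π) where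
  toFun e := ⟨fun r => e.1 r.1, by
    rw [LinearMap.mem_ker]
    funext δ
    rw [phi_apply, ← sum_eq R π e.1 δ.1]
    exact e.2.2 δ.1⟩
  invFun f := ⟨fun a => if h : a ∈ R then f.1 ⟨a, h⟩ else 0, by
    refine ⟨fun r hr => dif_neg hr, fun δ => ?_⟩
    rw [sum_eq]
    have h1 : ∀ r : R, (if h : (r.1 : α) ∈ R then f.1 ⟨r.1, h⟩ else 0) = f.1 r := fun r => dif_pos r.2
    simp only [h1]
    by_cases hδ : δ ∈ R.image π
    · have h2 := congrFun (LinearMap.mem_ker.1 f.2) ⟨δ, hδ⟩
      rw [phi_apply] at h2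
      exact h2
    · refine Finset.sum_eq_zero fun r _ => if_neg ?_
      rintro rfl
      exact hδ (Finset.mem_image_of_mem π r.2)⟩
  left_inv e := by
    refine Subtype.ext (funext fun a => ?_)
    by_cases h : a ∈ R
    · exact dif_pos h
    · exact (dif_neg h).trans (e.2.1 a h).symm
  right_inv f := by
    refine Subtype.ext (funext fun r => ?_)
    exact dif_pos r.2

theorem main : Pool.Agent.Q45.GM.W3 := by
  intro α R π
  rw [Nat.card_congr (eqv R π), Module.natCard_eq_pow_finrank (K := ZMod 2), Nat.card_zmod]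
  congr 1
  have h1 := LinearMap.finrank_range_add_finrank_ker (Phi R π)
  rw [LinearMap.range_eq_top.2 (phi_surj R π), finrank_top, Module.finrank_pi, Module.finrank_pi,
    Fintype.card_coe, Fintype.card_coe] at h1
  omega

end Pool.Agent.Q45.GM.JW3
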