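import Pool.Agent.Q45.GM.StmJ

set_option autoImplicit false
set_option linter.all false

open scoped Classical TensorProduct
open Polynomial

namespace Pool.Agent.Q45.GM.JLIN3

section basic

variable {p : ℕ} [Fact p.Prime] {M : Type} [AddCommGroup M] [Module ℤ_[p] M]

theorem pne : (p : ℤ_[p]) ≠ 0 := by
  exact_mod_cast (Nat.Prime.ne_zero Fact.out)

theorem pmem : (p : ℤ_[p]) ∈ IsLocalRing.maximalIdeal ℤ_[p] := by
  rw [PadicInt.maximalIdeal_eq_span_p]; exact Ideal.mem_span_singleton_self _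

/-- every vector is a fraction -/
theorem surj (w : ℚ_[p] ⊗[ℤ_[p]] M) :
    ∃ (s : ℤ_[p]) (m : M), s ≠ 0 ∧ s • w = (1 : ℚ_[p]) ⊗ₜ[ℤ_[p]] m := by
  haveI : IsLocalizedModule (nonZeroDivisors ℤ_[p]) (TensorProduct.mk ℤ_[p] ℚ_[p] M 1) :=
    (isLocalizedModule_iff_isBaseChange (nonZeroDivisors ℤ_[p]) ℚ_[p] _).mpr
      (TensorProduct.isBaseChange ℤ_[p] M ℚ_[p])
  obtain ⟨⟨m, s⟩, h⟩ := IsLocalizedModule.surj (nonZeroDivisors ℤ_[p])
    (TensorProduct.mk ℤ_[p] ℚ_[p] M 1) w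
  refine ⟨s, m, nonZeroDivisors.coe_ne_zero s, ?_⟩
  exact h

theorem inj [Module.Free ℤ_[p] M] {m : M} (h : (1 : ℚ_[p]) ⊗ₜ[ℤ_[p]] m = 0) : m = 0 := by
  haveI : IsLocalizedModule (nonZeroDivisors ℤ_[p]) (TensorProduct.mk ℤ_[p] ℚ_[p] M 1) :=
    (isLocalizedModule_iff_isBaseChange (nonZeroDivisors ℤ_[p]) ℚ_[p] _).mpr
      (TensorProduct.isBaseChange ℤ_[p] M ℚ_[p])
  have h' : TensorProduct.mk ℤ_[p] ℚ_[p] M 1 m = 0 := h
  rw [IsLocalizedModule.eq_zero_iff (nonZeroDivisors ℤ_[p])] at h'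
  obtain ⟨c, hc⟩ := h'
  have hc0 : (c : ℤ_[p]) ≠ 0 := nonZeroDivisors.coe_ne_zero c
  have : (c : ℤ_[p]) • m = 0 := hc
  exact (smul_eq_zero.mp this).resolve_left hc0

theorem cancelQ {s : ℤ_[p]} (hs : s ≠ 0) {w : ℚ_[p] ⊗[ℤ_[p]] M}
    (W : Submodule ℚ_[p] (ℚ_[p] ⊗[ℤ_[p]] M)) (h : s • w ∈ W) : w ∈ W := by
  have hs' : (s : ℚ_[p]) ≠ 0 := by simpa using hs
  have e : s • w = (s : ℚ_[p]) • w := by
    rw [← algebraMap_smul ℚ_[p] s w]; rfl
  rw [e] at h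
  have := W.smul_mem ((s : ℚ_[p])⁻¹) h
  rwa [smul_smul, inv_mul_cancel₀ hs', one_smul] at this

end basic

theorem main : Pool.Agent.Q45.GM.Lin3 := by
  intro p _ M _ _ _ _ Φ hΦ W hW
  let L : Submodule ℤ_[p] M :=
    Submodule.comap (TensorProduct.mk ℤ_[p] ℚ_[p] M 1) (W.restrictScalars ℤ_[p])
  have hL : ∀ m, m ∈ L ↔ (1 : ℚ_[p]) ⊗ₜ[ℤ_[p]] m ∈ W := fun m => Iff.rfl
  let I : Ideal ℤ_[p] := IsLocalRing.maximalIdeal ℤ_[p]
  have hI : I ≤ Ideal.jacobson ⊥ := (IsLocalRing.maximalIdeal_le_jacobson _)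
  have hfgL : L.FG := IsNoetherian.noetherian L
  have hsat : ∀ m : M, (p : ℤ_[p]) • m ∈ L → m ∈ L := by
    intro m hm
    rw [hL] at hm ⊢
    rw [TensorProduct.tmul_smul] at hm
    exact cancelQ pne W hm
  have k1 : ∀ m : M, (p : ℤ_[p]) • m ∈ L ⊔ I • (⊤ : Submodule ℤ_[p] M) := by
    intro m
    exact Submodule.mem_sup_right (Submodule.smul_mem_smul pmem trivial)
  have k2 : ∀ φ ∈ Φ, ∀ m ∈ L ⊔ I • (⊤ : Submodule ℤ_[p] M), φ m ∈ L ⊔ I • (⊤ : Submodule ℤ_[p] M) := by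
    intro φ hφ m hm
    rw [Submodule.mem_sup] at hm ⊢
    obtain ⟨y, hy, z, hz, rfl⟩ := hm
    refine ⟨φ y, ?_, φ z, ?_, by rw [map_add]⟩
    · rw [hL] at hy ⊢
      have := hW φ hφ _ hy
      rwa [LinearMap.baseChange_tmul] at this
    · have : Submodule.map φ (I • ⊤) ≤ I • ⊤ := by
        rw [Submodule.map_smul'']
        exact Submodule.smul_mono le_rfl le_top
      exact this (Submodule.mem_map_of_mem hz)
  rcases hΦ (L ⊔ I • ⊤) k1 k2 with h | h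
  · left
    have hb : L = ⊥ := by
      refine Submodule.eq_bot_of_le_smul_of_le_jacobson_bot I L hfgL ?_ hI
      intro m hm
      obtain ⟨m', rfl⟩ := h m (Submodule.mem_sup_left hm)
      exact Submodule.smul_mem_smul pmem (hsat m' hm)
    rw [eq_bot_iff]
    intro w hw
    obtain ⟨s, m, hs, h1⟩ := surj w
    have hm : m ∈ L := by
      rw [hL, ← h1]
      exact (W.restrictScalars ℤ_[p]).smul_mem s hw
    rw [hb, Submodule.mem_bot] at hm
    rw [hm, TensorProduct.tmul_zero] at h1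
    have := cancelQ (w := w) hs (⊥ : Submodule ℚ_[p] _) (by rw [h1]; exact Submodule.zero_mem _)
    exact this
  · right
    have ht : L = ⊤ := by
      rw [eq_top_iff]
      refine Submodule.le_of_le_smul_of_le_jacobson_bot (I := I) ?_ hI ?_
      · exact IsNoetherian.noetherian _
      · rw [h]
    rw [eq_top_iff]
    intro w _
    obtain ⟨s, m, hs, h1⟩ := surj w
    have hm : m ∈ L := by rw [ht]; trivial
    rw [hL, ← h1] at hm
    exact cancelQ hs W hm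

end Pool.Agent.Q45.GM.JLIN3
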