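import Pool.Agent.Q45.GM.StmL

/-! Project GM (helper45), job W1 (helper26): irreducibility of the module. -/

set_option autoImplicit false

open scoped Classical

namespace Pool.Agent.Q45.GM.JW1

open Pool.Agent.Q45.GM

variable {α : Type}

/-- the indicator of `{a, b}` (zero if `a = b`) -/
noncomputable def I (a b : α) : α → ZMod 2 := fun x => (if x = a then 1 else 0) + (if x = b then 1 else 0)

theorem two_zero (x : ZMod 2) : x + x = 0 := CharTwo.add_self_eq_zero x

theorem ne_zero_iff (x : ZMod 2) : x ≠ 0 ↔ x = 1 := by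
  revert x
  have h : ∀ x : Fin 2, x ≠ 0 ↔ x = 1 := by
    intro x
    rcases x with ⟨x, hx⟩
    rw [Ne, Fin.ext_iff, Fin.ext_iff]
    show ¬ x = 0 ↔ x = 1
    omega
  exact h

theorem I_add (r x y : α) : I x y = I r x + I r y := by
  funext z
  show _ = ((if z = r then (1 : ZMod 2) else 0) + (if z = x then 1 else 0)) +
    ((if z = r then 1 else 0) + (if z = y then 1 else 0))
  have h : ∀ a b c : ZMod 2, a + b = (c + a) + (c + b) := by
    intro a b c
    have := two_zero c
    linear_combination -this
  exact h _ _ _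

theorem I_comp (τ : α ≃ α) (a b : α) : (fun x => I (τ a) (τ b) (τ x)) = I a b := by
  funext x
  show (if τ x = τ a then (1 : ZMod 2) else 0) + (if τ x = τ b then 1 else 0) =
    (if x = a then 1 else 0) + (if x = b then 1 else 0)
  simp only [EmbeddingLike.apply_eq_iff_eq]

/-- the elements of the module are sums of indicators of pairs in a fibre -/
theorem gen (R : Finset α) (π : α → α) (U : AddSubgroup (α → ZMod 2)) (hU : U ≤ WBal R π)
    (hI : ∀ a ∈ R, ∀ b ∈ R, π a = π b → I a b ∈ U) (n : ℕ) :
    ∀ e ∈ WBal R π, (R.filter fun x => e x ≠ 0).card ≤ n → e ∈ U := by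
  induction n with
  | zero =>
    intro e he h
    have h1 : R.filter (fun x => e x ≠ 0) = ∅ := Finset.card_eq_zero.1 (Nat.le_zero.1 h)
    have h2 : e = 0 := by
      funext x
      by_cases hx : x ∈ R
      · by_contra h3
        have h4 : x ∈ R.filter (fun x => e x ≠ 0) := Finset.mem_filter.2 ⟨hx, h3⟩
        rw [h1] at h4
        exact absurd h4 (Finset.notMem_empty _)
      · exact he.1 x hx
    rw [h2]
    exact U.zero_mem
  | succ n ih =>
    intro e he h
    by_cases h1 : ∃ x ∈ R, e x ≠ 0
    · obtain ⟨x, hx, hex⟩ := h1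
      obtain ⟨y, hy, hyx, hπ, hey⟩ : ∃ y ∈ R, y ≠ x ∧ π y = π x ∧ e y ≠ 0 := by
        by_contra hcon
        push Not at hcon
        have h2 := he.2 (π x)
        rw [Finset.sum_eq_single x] at h2
        · exact hex h2
        · intro b hb hbx
          rw [Finset.mem_filter] at hb
          exact hcon b hb.1 hbx hb.2
        · intro h3
          exact absurd (Finset.mem_filter (p := fun r => π r = π x).2 ⟨hx, rfl⟩) h3
      have hIU : I x y ∈ U := hI x hx y hy hπ.symm
      have hsub : (R.filter fun z => (e + I x y) z ≠ 0) ⊆ (R.filter fun z => e z ≠ 0).erase x := by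
        intro z hz
        rw [Finset.mem_filter] at hz
        obtain ⟨hzR, hz0⟩ := hz
        have hzv : (e + I x y) z = e z + ((if z = x then 1 else 0) + (if z = y then 1 else 0)) := rfl
        rw [hzv] at hz0
        have hzx : z ≠ x := by
          rintro rfl
          apply hz0
          rw [(ne_zero_iff _).1 hex, if_pos rfl, if_neg (fun h => hyx h.symm), add_zero]
          exact two_zero 1
        have hzy : z ≠ y := by
          rintro rfl
          apply hz0
          rw [(ne_zero_iff _).1 hey, if_pos rfl, if_neg hyx, zero_add]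
          exact two_zero 1
        rw [if_neg hzx, if_neg hzy, add_zero, add_zero] at hz0
        exact Finset.mem_erase.2 ⟨hzx, Finset.mem_filter.2 ⟨hzR, hz0⟩⟩
      have hcard : (R.filter fun z => (e + I x y) z ≠ 0).card ≤ n := by
        have h3 := Finset.card_le_card hsub
        rw [Finset.card_erase_of_mem (Finset.mem_filter.2 ⟨hx, hex⟩)] at h3
        omega
      have h4 := ih (e + I x y) ((WBal R π).add_mem he (hU hIU)) hcard
      have h5 := U.sub_mem h4 hIU
      rwa [add_sub_cancel_right] at h5
    · push Not at h1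
      have h2 : e = 0 := by
        funext x
        by_cases hx : x ∈ R
        · exact h1 x hx
        · exact he.1 x hx
      rw [h2]
      exact U.zero_mem

theorem main : Pool.Agent.Q45.GM.W1 := by
  intro α R π n Γ hn hT U hU hst
  by_cases hbot : U = ⊥
  · exact Or.inl hbot
  right
  obtain ⟨e, he, he0⟩ : ∃ e ∈ U, e ≠ 0 := by
    by_contra hcon
    push Not at hcon
    exact hbot ((AddSubgroup.eq_bot_iff_forall U).2 hcon)
  obtain ⟨r, hr0⟩ : ∃ r, e r ≠ 0 := by
    by_contra hcon
    push Not at hcon
    exact he0 (funext hcon)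
  have heW := hU he
  have hr : r ∈ R := by
    by_contra h
    exact hr0 (heW.1 r h)
  have hr1 := (ne_zero_iff _).1 hr0
  -- step 1
  obtain ⟨r', hr', hπ', her'⟩ : ∃ r' ∈ R, π r' = π r ∧ e r' = 0 := by
    by_contra hcon
    push Not at hcon
    have h2 := heW.2 (π r)
    have h3 : ∑ x ∈ R.filter (fun x => π x = π r), e x = ∑ x ∈ R.filter (fun x => π x = π r), 1 := by
      refine Finset.sum_congr rfl fun x hx => ?_
      rw [Finset.mem_filter] at hx
      exact (ne_zero_iff _).1 (hcon x hx.1 hx.2)
    rw [h3, Finset.sum_const, hT.card r hr, nsmul_eq_mul, mul_one] at h2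
    rw [ZMod.natCast_eq_zero_iff_even] at h2
    exact (Nat.not_even_iff_odd.2 hn) h2
  have hne : r ≠ r' := by
    rintro rfl
    rw [hr1] at her'
    exact one_ne_zero her'
  -- step 2
  have hI1 : I r r' ∈ U := by
    obtain ⟨τ, hτ, h1, h2, h3⟩ := hT.swap r hr r' hr' hne hπ'.symm
    have h4 : I r r' = e + fun x => e (τ x) := by
      funext x
      show (if x = r then (1 : ZMod 2) else 0) + (if x = r' then 1 else 0) = e x + e (τ x)
      by_cases hx1 : x = r
      · rw [if_pos hx1, if_neg (fun h => hne (hx1.symm.trans h)), hx1, h1, her', hr1]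
      · by_cases hx2 : x = r'
        · rw [if_neg hx1, if_pos hx2, hx2, h2, her', hr1]
        · rw [if_neg hx1, if_neg hx2]
          by_cases hxR : x ∈ R
          · rw [h3 x hxR hx1 hx2, two_zero, two_zero]
          · rw [heW.1 x hxR, heW.1 (τ x) fun h => hxR ((hT.mem τ hτ x).1 h)]
    rw [h4]
    exact U.add_mem he (hst τ hτ e he)
  -- step 3
  have hI2 : ∀ x ∈ R, π x = π r → I r x ∈ U := by
    intro x hx hπx
    by_cases hxr : x = r
    · have h : I r x = 0 := by
        funext z
        rw [hxr]
        exact two_zero _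
      rw [h]
      exact U.zero_mem
    by_cases hxr' : x = r'
    · rw [hxr']; exact hI1
    · obtain ⟨τ, hτ, h1, h2, h3⟩ := hT.swap r' hr' x hx (Ne.symm hxr') (hπ'.trans hπx.symm)
      have h4 : τ r = r := h3 r hr hne (Ne.symm hxr)
      have h5 := hst τ hτ _ hI1
      have h6 : (fun z => I r r' (τ z)) = I r x := by
        have h7 := I_comp τ r x
        rw [h4, h2] at h7
        exact h7
      rwa [h6] at h5
  -- step 4
  have hI3 : ∀ x ∈ R, ∀ y ∈ R, π x = π r → π y = π r → I x y ∈ U := by
    intro x hx y hy hπx hπy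
    rw [I_add r x y]
    exact U.add_mem (hI2 x hx hπx) (hI2 y hy hπy)
  -- step 5
  have hI4 : ∀ a ∈ R, ∀ b ∈ R, π a = π b → I a b ∈ U := by
    intro a ha b hb hab
    obtain ⟨τ, hτ, h1⟩ := hT.trans a ha r hr
    have h2 : π (τ b) = π r := by
      rw [← h1]
      exact (hT.fib τ hτ b hb a ha).2 hab.symm
    have h3 := hI3 (τ a) ((hT.mem τ hτ a).2 ha) (τ b) ((hT.mem τ hτ b).2 hb) h1 h2
    have h4 := hst τ hτ _ h3
    rwa [I_comp] at h4
  exact le_antisymm hU fun e he => gen R π U hU hI4 _ e he le_rfl

end Pool.Agent.Q45.GM.JW1
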