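import Pool.Agent.Q45.GM.StmL

/-! Project GM (helper45), job W2: the endomorphisms of the module of balanced functions. -/

set_option autoImplicit false
set_option linter.all false

open scoped Classical

namespace Pool.Agent.Q45.GM.JW2

open Pool.Agent.Q45.GM

section gen

variable {α : Type} (R : Finset α) (π : α → α)

/-- a pair of different elements of the same fibre -/
structure Pr (x y : α) : Prop where
  hx : x ∈ R
  hy : y ∈ R
  ne : x ≠ y
  eq : π x = π y

noncomputable def dl (x : α) : α → ZMod 2 := fun r => if r = x then 1 else 0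

noncomputable def ind (x y : α) : α → ZMod 2 := fun r => dl x r + dl y r

variable {R π}

theorem Pr.symm {x y : α} (h : Pr R π x y) : Pr R π y x := ⟨h.hy, h.hx, h.ne.symm, h.eq.symm⟩

theorem zz (a : ZMod 2) : a + a = 0 := CharTwo.add_self_eq_zero a

theorem zm (a : ZMod 2) (h : a ≠ 0) : a = 1 := by
  revert a
  decide

theorem ind_mem {x y : α} (h : Pr R π x y) : ind x y ∈ WBal R π := by
  refine ⟨fun r hr => ?_, fun δ => ?_⟩
  · have h1 : r ≠ x := fun e => hr (e ▸ h.hx)
    have h2 : r ≠ y := fun e => hr (e ▸ h.hy)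
    simp only [ind, dl, if_neg h1, if_neg h2, add_zero]
  · simp only [ind, dl]
    rw [Finset.sum_add_distrib, Finset.sum_ite_eq', Finset.sum_ite_eq']
    have h1 : (x ∈ R.filter fun r => π r = δ) ↔ (y ∈ R.filter fun r => π r = δ) := by
      rw [Finset.mem_filter, Finset.mem_filter, h.eq]
      exact ⟨fun e => ⟨h.hy, e.2⟩, fun e => ⟨h.hx, e.2⟩⟩
    by_cases h2 : y ∈ R.filter fun r => π r = δ
    · rw [if_pos h2, if_pos (h1.2 h2)]
      exact zz 1
    · rw [if_neg h2, if_neg (fun e => h2 (h1.1 e)), add_zero]

noncomputable def Ib {x y : α} (h : Pr R π x y) : WBal R π := ⟨ind x y, ind_mem h⟩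

theorem gen_aux (U : AddSubgroup (WBal R π)) (hU : ∀ (x y : α) (h : Pr R π x y), Ib h ∈ U) :
    ∀ (m : ℕ) (e : WBal R π), (R.filter fun r => e.1 r ≠ 0).card ≤ m → e ∈ U := by
  intro m
  induction m with
  | zero =>
    intro e he
    have h1 : e = 0 := by
      apply Subtype.ext
      funext r
      by_cases hr : r ∈ R
      · by_contra h2
        have h3 : r ∈ R.filter fun r => e.1 r ≠ 0 := Finset.mem_filter.2 ⟨hr, h2⟩
        rw [Finset.card_eq_zero.1 (Nat.le_zero.1 he)] at h3
        exact Finset.notMem_empty _ h3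
      · exact e.2.1 r hr
    rw [h1]
    exact U.zero_mem
  | succ m ih =>
    intro e he
    by_cases h0 : ∃ x ∈ R, e.1 x ≠ 0
    · obtain ⟨x, hx, hex⟩ := h0
      have h1 : ∃ y ∈ R, y ≠ x ∧ π y = π x ∧ e.1 y ≠ 0 := by
        by_contra h2
        push Not at h2
        have h3 := e.2.2 (π x)
        rw [Finset.sum_eq_single x] at h3
        · exact hex h3
        · intro y hy hyx
          rw [Finset.mem_filter] at hy
          exact h2 y hy.1 hyx hy.2
        · intro h4
          have h6 : x ∈ R.filter fun r => π r = π x := Finset.mem_filter.2 ⟨hx, rfl⟩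
          exact absurd h6 h4
      obtain ⟨y, hy, hyx, hpy, hey⟩ := h1
      have hP : Pr R π x y := ⟨hx, hy, hyx.symm, hpy.symm⟩
      have h5 : e + Ib hP ∈ U := by
        apply ih
        have h6 : (R.filter fun r => (e + Ib hP).1 r ≠ 0) ⊆ (R.filter fun r => e.1 r ≠ 0).erase x := by
          intro r hr
          rw [Finset.mem_filter] at hr
          obtain ⟨hr1, hr2⟩ := hr
          have h7 : (e + Ib hP).1 r = e.1 r + (dl x r + dl y r) := rfl
          rw [h7] at hr2
          rw [Finset.mem_erase, Finset.mem_filter]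
          by_cases h8 : r = x
          · exfalso
            apply hr2
            rw [h8, zm _ hex]
            simp only [dl, if_pos rfl, if_neg hyx.symm, add_zero]
            exact zz 1
          · refine ⟨h8, hr1, ?_⟩
            by_cases h9 : r = y
            · rw [h9]
              exact hey
            · simp only [dl, if_neg h8, if_neg h9, add_zero] at hr2
              exact hr2
        have h7 := Finset.card_le_card h6
        rw [Finset.card_erase_of_mem (Finset.mem_filter.2 ⟨hx, hex⟩)] at h7
        omega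
      have h6 : e = (e + Ib hP) - Ib hP := by abel
      rw [h6]
      exact U.sub_mem h5 (hU x y hP)
    · push Not at h0
      apply ih
      have h1 : (R.filter fun r => e.1 r ≠ 0) = ∅ := by
        apply Finset.filter_eq_empty_iff.2
        intro r hr h2
        exact h2 (h0 r hr)
      rw [h1, Finset.card_empty]
      exact Nat.zero_le _

theorem gen (U : AddSubgroup (WBal R π)) (hU : ∀ (x y : α) (h : Pr R π x y), Ib h ∈ U)
    (e : WBal R π) : e ∈ U := gen_aux U hU _ e le_rfl

theorem dl_comp (τ : α ≃ α) (x r : α) : dl (τ x) (τ r) = dl x r := by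
  simp only [dl]
  by_cases h : r = x
  · rw [if_pos h, if_pos (by rw [h])]
  · rw [if_neg h, if_neg (fun e => h (τ.injective e))]

end gen

theorem main : W2 := by
  intro α R π n Γ hn HT A hA
  -- transport
  have tr : ∀ τ ∈ Γ, ∀ (x y x' y' : α) (h : Pr R π x y) (h' : Pr R π x' y'), τ x' = x → τ y' = y →
      ∀ r, (A (Ib h')).1 r = (A (Ib h)).1 (τ r) := by
    intro τ hτ x y x' y' h h' h1 h2
    apply hA τ hτ
    intro r
    show dl x' r + dl y' r = dl x (τ r) + dl y (τ r)
    rw [← h1, ← h2, dl_comp, dl_comp]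
  -- the values on the generators
  have st : ∀ (x y : α) (h : Pr R π x y), A (Ib h) = 0 ∨ A (Ib h) = Ib h := by
    intro x y h
    -- a third element
    obtain ⟨z, hz, hzx, hzy, hpz⟩ : ∃ z ∈ R, z ≠ x ∧ z ≠ y ∧ π z = π x := by
      by_contra h1
      push Not at h1
      have h2 : (R.filter fun r => π r = π x) = {x, y} := by
        ext r
        rw [Finset.mem_filter, Finset.mem_insert, Finset.mem_singleton]
        constructor
        · rintro ⟨h3, h4⟩
          by_contra h5
          push Not at h5
          exact h1 r h3 h5.1 h5.2 h4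
        · rintro (h3 | h3)
          · rw [h3]
            exact ⟨h.hx, rfl⟩
          · rw [h3]
            exact ⟨h.hy, h.eq.symm⟩
      have h3 := HT.card x h.hx
      rw [h2, Finset.card_pair h.ne] at h3
      rw [← h3] at hn
      exact absurd hn (by decide)
    have hxz : Pr R π x z := ⟨h.hx, hz, hzx.symm, hpz.symm⟩
    have hyz : Pr R π y z := ⟨h.hy, hz, hzy.symm, h.eq.symm.trans hpz.symm⟩
    obtain ⟨σ, hσ, s1, s2, s3⟩ := HT.swap x h.hx y h.hy h.ne h.eq
    have s4 := s3 z hz hzx hzy
    have h1 : Ib h = Ib hxz + Ib hyz := by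
      apply Subtype.ext
      funext r
      show dl x r + dl y r = (dl x r + dl z r) + (dl y r + dl z r)
      have h2 := zz (dl z r)
      calc dl x r + dl y r = dl x r + dl y r + (dl z r + dl z r) := by rw [h2, add_zero]
        _ = _ := by abel
    have h2 := tr σ hσ x z y z hxz hyz s2 s4
    set v := A (Ib hxz) with hv
    have h3 : ∀ r, (A (Ib h)).1 r = v.1 r + v.1 (σ r) := by
      intro r
      rw [h1, map_add, ← h2 r]
      rfl
    have h4 : ∀ r, r ≠ x → r ≠ y → (A (Ib h)).1 r = 0 := by
      intro r hrx hry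
      by_cases hr : r ∈ R
      · rw [h3, s3 r hr hrx hry]
        exact zz _
      · exact (A (Ib h)).2.1 r hr
    have h5 : (A (Ib h)).1 x = v.1 x + v.1 y := by rw [h3, s1]
    have h6 : (A (Ib h)).1 y = v.1 x + v.1 y := by rw [h3, s2, add_comm]
    by_cases h7 : v.1 x + v.1 y = 0
    · left
      apply Subtype.ext
      funext r
      by_cases h8 : r = x
      · rw [h8, h5, h7]
        rfl
      · by_cases h9 : r = y
        · rw [h9, h6, h7]
          rfl
        · exact h4 r h8 h9
    · right
      apply Subtype.ext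
      funext r
      show _ = dl x r + dl y r
      by_cases h8 : r = x
      · rw [h8, h5, zm _ h7]
        simp only [dl, if_true, if_neg h.ne, add_zero]
      · by_cases h9 : r = y
        · rw [h9, h6, zm _ h7]
          simp only [dl, if_true, if_neg h.ne.symm, zero_add]
        · rw [h4 r h8 h9]
          simp only [dl, if_neg h8, if_neg h9, add_zero]
  -- the vanishing does not depend on the pair
  have inv : ∀ τ ∈ Γ, ∀ (x y x' y' : α) (h : Pr R π x y) (h' : Pr R π x' y'), τ x' = x → τ y' = y →
      (A (Ib h) = 0 ↔ A (Ib h') = 0) := by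
    intro τ hτ x y x' y' h h' h1 h2
    have h3 := tr τ hτ x y x' y' h h' h1 h2
    constructor
    · intro h4
      apply Subtype.ext
      funext r
      rw [h3, h4]
      rfl
    · intro h4
      apply Subtype.ext
      funext r
      have h5 := h3 (τ.symm r)
      rw [h4, τ.apply_symm_apply] at h5
      exact h5.symm
  have sy : ∀ (x y : α) (h : Pr R π x y) (h' : Pr R π y x), A (Ib h) = A (Ib h') := by
    intro x y h h'
    congr 1
    apply Subtype.ext
    funext r
    exact add_comm _ _
  -- change of the second element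
  have ch2 : ∀ (x y z : α) (h : Pr R π x y) (h' : Pr R π x z), (A (Ib h) = 0 ↔ A (Ib h') = 0) := by
    intro x y z h h'
    by_cases hyz : y = z
    · subst hyz
      exact Iff.rfl
    · obtain ⟨τ, hτ, t1, t2, t3⟩ := HT.swap y h.hy z h'.hy hyz (h.eq.symm.trans h'.eq)
      exact inv τ hτ x y x z h h' (t3 x h.hx h.ne h'.ne) t2
  have fibre : ∀ (x y x' y' : α) (h : Pr R π x y) (h' : Pr R π x' y'), π x = π x' →
      (A (Ib h) = 0 ↔ A (Ib h') = 0) := by
    intro x y x' y' h h' hp
    by_cases h1 : x = y'
    · subst h1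
      have h2 : Pr R π x x' := h'.symm
      rw [ch2 x y x' h h2, sy x x' h2 h']
    · have h2 : Pr R π x y' := ⟨h.hx, h'.hy, h1, hp.trans h'.eq⟩
      have h3 : Pr R π y' x := h2.symm
      have h4 : Pr R π y' x' := h'.symm
      rw [ch2 x y y' h h2, sy x y' h2 h3, ch2 y' x x' h3 h4, sy y' x' h4 h']
  have all : ∀ (x y x' y' : α) (h : Pr R π x y) (h' : Pr R π x' y'),
      (A (Ib h) = 0 ↔ A (Ib h') = 0) := by
    intro x y x' y' h h'
    obtain ⟨τ, hτ, h1⟩ := HT.trans x h.hx x' h'.hx
    have h2 : Pr R π (τ x) (τ y) := ⟨(HT.mem τ hτ x).2 h.hx, (HT.mem τ hτ y).2 h.hy,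
      fun e => h.ne (τ.injective e), (HT.fib τ hτ x h.hx y h.hy).2 h.eq⟩
    rw [← inv τ hτ (τ x) (τ y) x y h2 h rfl rfl]
    exact fibre _ _ _ _ h2 h' h1
  by_cases h0 : ∀ (x y : α) (h : Pr R π x y), A (Ib h) = 0
  · left
    apply AddMonoidHom.ext
    intro e
    have h1 := gen A.ker (fun x y h => h0 x y h) e
    exact h1
  · right
    push Not at h0
    obtain ⟨x0, y0, h1, h2⟩ := h0
    apply AddMonoidHom.ext
    intro e
    have h3 := gen (A - AddMonoidHom.id _).ker (fun x y h => by
      have h4 : A (Ib h) ≠ 0 := fun h5 => h2 ((all x y x0 y0 h h1).1 h5)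
      have h5 := (st x y h).resolve_left h4
      show A (Ib h) - Ib h = 0
      rw [h5, sub_self]) e
    exact sub_eq_zero.1 h3

end Pool.Agent.Q45.GM.JW2
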